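import Mathlib

/-! # Varieties of nilpotent (A,C)-commutative n-ary algebras: definitions -/

namespace R658.NV

open scoped BigOperators Matrix

/-- An `n`-ary algebra structure on `ℂ^k`: a multilinear map `(ℂ^k)^n → ℂ^k`. -/
abbrev NAlg (n k : ℕ) := MultilinearMap ℂ (fun _ : Fin n => (Fin k → ℂ)) (Fin k → ℂ)

/-- `(A,C)`-commutativity: interchanging the entries in two different positions of `A` changes
the sign, interchanging the entries in two positions of `C` changes nothing. -/
def ACComm {n k : ℕ} (A C : Finset (Fin n)) (μ : NAlg n k) : Prop :=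
  (∀ p ∈ A, ∀ q ∈ A, p ≠ q → ∀ x : Fin n → Fin k → ℂ, μ (fun r => x (Equiv.swap p q r)) = - μ x) ∧
  (∀ p ∈ C, ∀ q ∈ C, ∀ x : Fin n → Fin k → ℂ, μ (fun r => x (Equiv.swap p q r)) = μ x)

/-- `IsMonomial μ d v`: the vector `v` is the value of a monomial with `d` applications of the
multiplication `μ` (with any arrangement of brackets) at elements of the algebra. -/
inductive IsMonomial {n k : ℕ} (μ : NAlg n k) : ℕ → (Fin k → ℂ) → Prop
  | elem (x : Fin k → ℂ) : IsMonomial μ 0 x
  | app (d : Fin n → ℕ) (x : Fin n → Fin k → ℂ) (h : ∀ p, IsMonomial μ (d p) (x p)) :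
      IsMonomial μ (1 + ∑ p, d p) (μ x)

/-- Nilpotency: every monomial with at least `m` applications of the multiplication vanishes. -/
def Nilpotent {n k : ℕ} (μ : NAlg n k) : Prop :=
  ∃ m : ℕ, ∀ (d : ℕ) (x : Fin k → ℂ), m ≤ d → IsMonomial μ d x → x = 0

/-- The set of nilpotent `(A,C)`-commutative structures. -/
def X (n k : ℕ) (A C : Finset (Fin n)) : Set (NAlg n k) :=
  {μ | ACComm A C μ ∧ Nilpotent μ}

/-- index set of the structure constants -/
abbrev Idx (n k : ℕ) := (Fin n → Fin k) × Fin k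

/-- The structure constants of an `n`-ary algebra in the standard basis. -/
def coords {n k : ℕ} (μ : NAlg n k) : Idx n k → ℂ :=
  fun q => μ (fun p => Pi.single (q.1 p) 1) q.2

/-- The dimension of (the Zariski closure of) a subset of the affine space `ℂ^σ`: the Krull
dimension of its coordinate ring. -/
noncomputable def varDim {σ : Type} (S : Set (σ → ℂ)) : WithBot ℕ∞ :=
  ringKrullDim (MvPolynomial σ ℂ ⧸ MvPolynomial.vanishingIdeal ℂ S)

/-! ### auxiliary definitions -/

/-- Base change of structure constants: `g ∘ c ∘ (h, …, h)`. -/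
def act {n k : ℕ} {R : Type*} [CommRing R] (g h : Matrix (Fin k) (Fin k) R) (c : Idx n k → R) :
    Idx n k → R :=
  fun q => ∑ l, g q.2 l * ∑ J : Fin n → Fin k, c (J, l) * ∏ p, h (J p) (q.1 p)

/-- The linear space of `(A,C)`-commutative structure constants with
`[e_{I 1},…,e_{I n}] ∈ span (e_j : j > max I)`. -/
def W (R : Type*) [CommRing R] (n k : ℕ) (A C : Finset (Fin n)) : Submodule R (Idx n k → R) where
  carrier := {w | (∀ p ∈ A, ∀ q ∈ A, p ≠ q → ∀ (I : Fin n → Fin k) (j : Fin k),
      w (fun r => I (Equiv.swap p q r), j) = - w (I, j)) ∧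
    (∀ p ∈ C, ∀ q ∈ C, ∀ (I : Fin n → Fin k) (j : Fin k),
      w (fun r => I (Equiv.swap p q r), j) = w (I, j)) ∧
    (∀ (I : Fin n → Fin k) (j : Fin k), (∃ p, j ≤ I p) → w (I, j) = 0)}
  add_mem' := by
    rintro x y ⟨hx1, hx2, hx3⟩ ⟨hy1, hy2, hy3⟩
    refine ⟨fun p hp q hq hpq I j => ?_, fun p hp q hq I j => ?_, fun I j h => ?_⟩
    · simp only [Pi.add_apply, hx1 p hp q hq hpq I j, hy1 p hp q hq hpq I j]; ring
    · simp only [Pi.add_apply, hx2 p hp q hq I j, hy2 p hp q hq I j]
    · simp only [Pi.add_apply, hx3 I j h, hy3 I j h, add_zero]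
  zero_mem' := ⟨fun _ _ _ _ _ _ _ => by simp, fun _ _ _ _ _ _ => rfl, fun _ _ _ => rfl⟩
  smul_mem' := by
    rintro t x ⟨hx1, hx2, hx3⟩
    refine ⟨fun p hp q hq hpq I j => ?_, fun p hp q hq I j => ?_, fun I j h => ?_⟩
    · simp only [Pi.smul_apply, hx1 p hp q hq hpq I j, smul_neg]
    · simp only [Pi.smul_apply, hx2 p hp q hq I j]
    · simp only [Pi.smul_apply, hx3 I j h, smul_zero]

/-- the number of parameters, as an explicit formula -/
def cardW (n k : ℕ) (A C : Finset (Fin n)) : ℕ :=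
  ∑ m ∈ Finset.range k, m.choose A.card * m.multichoose C.card * m ^ (n - A.card - C.card)

end R658.NV
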