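import Mathlib
import Pool.Agent.R658.NV.Defs

namespace R658.NV

open scoped BigOperators Matrix

section basic

variable {n k : ℕ} {R S : Type*} [CommRing R] [CommRing S]

theorem map_act (φ : R →+* S) (g h : Matrix (Fin k) (Fin k) R) (c : Idx n k → R) (q : Idx n k) :
    φ (act g h c q) = act (g.map φ) (h.map φ) (fun i => φ (c i)) q := by
  simp [act, map_sum, map_mul, map_prod]

theorem act_act (g h g' h' : Matrix (Fin k) (Fin k) R) (c : Idx n k → R) :
    act g h (act g' h' c) = act (g * g') (h' * h) c := by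
  funext q
  obtain ⟨I, j⟩ := q
  simp only [act, Matrix.mul_apply]
  have key : ∀ J' : Fin n → Fin k, ∏ p, ∑ m, h' (J' p) m * h m (I p) =
      ∑ J : Fin n → Fin k, (∏ p, h' (J' p) (J p)) * ∏ p, h (J p) (I p) := by
    intro J'
    rw [Finset.prod_univ_sum, Fintype.piFinset_univ]
    exact Finset.sum_congr rfl fun J _ => Finset.prod_mul_distrib
  simp_rw [key]
  have h1 : ∀ l' : Fin k, ∑ J' : Fin n → Fin k, c (J', l') *
      ∑ J : Fin n → Fin k, (∏ p, h' (J' p) (J p)) * ∏ p, h (J p) (I p) =
      ∑ J : Fin n → Fin k, (∑ J' : Fin n → Fin k, c (J', l') * ∏ p, h' (J' p) (J p)) *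
        ∏ p, h (J p) (I p) := by
    intro l'
    simp_rw [Finset.mul_sum, Finset.sum_mul]
    rw [Finset.sum_comm]
    refine Finset.sum_congr rfl fun J _ => Finset.sum_congr rfl fun J' _ => by ring
  simp_rw [h1]
  have h3 : ∀ (A : Fin k → (Fin n → Fin k) → R) (H : (Fin n → Fin k) → R),
      ∑ l, g j l * ∑ J, (∑ l', g' l l' * A l' J) * H J =
      ∑ l', (∑ l, g j l * g' l l') * ∑ J, A l' J * H J := by
    intro A H
    calc ∑ l, g j l * ∑ J, (∑ l', g' l l' * A l' J) * H J
        = ∑ l, ∑ l', ∑ J, g j l * (g' l l' * A l' J * H J) := by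
          refine Finset.sum_congr rfl fun l _ => ?_
          rw [Finset.mul_sum, Finset.sum_comm]
          refine Finset.sum_congr rfl fun J _ => ?_
          rw [Finset.sum_mul, Finset.mul_sum]
      _ = ∑ l', ∑ l, ∑ J, g j l * (g' l l' * A l' J * H J) := Finset.sum_comm
      _ = _ := by
          refine Finset.sum_congr rfl fun l' _ => ?_
          rw [Finset.sum_mul]
          refine Finset.sum_congr rfl fun l _ => ?_
          rw [Finset.mul_sum]
          refine Finset.sum_congr rfl fun J _ => by ring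
  exact h3 (fun l' J => ∑ J' : Fin n → Fin k, c (J', l') * ∏ p, h' (J' p) (J p))
    (fun J => ∏ p, h (J p) (I p))

theorem prod_one_apply (I J : Fin n → Fin k) :
    ∏ p, (1 : Matrix (Fin k) (Fin k) R) (J p) (I p) = if J = I then 1 else 0 := by
  split_ifs with h
  · subst h; simp
  · obtain ⟨p, hp⟩ := Function.ne_iff.mp h
    exact Finset.prod_eq_zero (Finset.mem_univ p) (Matrix.one_apply_ne hp)

theorem act_one (c : Idx n k → R) : act 1 1 c = c := by
  funext q
  obtain ⟨I, j⟩ := q
  simp only [act, prod_one_apply]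
  simp [Matrix.one_apply]

theorem act_smul (g h : Matrix (Fin k) (Fin k) R) (t : R) (c : Idx n k → R) :
    act g h (t • c) = t • act g h c := by
  funext q
  simp only [act, Pi.smul_apply, smul_eq_mul, Finset.mul_sum]
  refine Finset.sum_congr rfl fun l _ => Finset.sum_congr rfl fun J _ => by ring

theorem act_smul_right (g h : Matrix (Fin k) (Fin k) R) (t : R) (c : Idx n k → R) :
    act g (t • h) c = act g h (t ^ n • c) := by
  funext q
  simp only [act, Pi.smul_apply, Matrix.smul_apply, smul_eq_mul, Finset.prod_mul_distrib,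
    Finset.prod_const, Finset.card_univ, Fintype.card_fin]
  refine Finset.sum_congr rfl fun l _ => ?_
  congr 1
  refine Finset.sum_congr rfl fun J _ => by ring

theorem act_perm (g h : Matrix (Fin k) (Fin k) R) (c : Idx n k → R) (σ : Equiv.Perm (Fin n))
    (I : Fin n → Fin k) (j : Fin k) :
    act g h c (fun r => I (σ r), j) = act g h (fun q => c (fun r => q.1 (σ r), q.2)) (I, j) := by
  simp only [act]
  refine Finset.sum_congr rfl fun l _ => ?_
  congr 1
  let e : (Fin n → Fin k) ≃ (Fin n → Fin k) := Equiv.arrowCongr σ.symm (Equiv.refl _)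
  rw [← Equiv.sum_comp e]
  refine Finset.sum_congr rfl fun J _ => ?_
  have h1 : ∀ r, e J r = J (σ r) := fun r => by simp [e, Equiv.arrowCongr]
  have h2 : (e J : Fin n → Fin k) = fun r => J (σ r) := funext h1
  rw [h2]
  congr 1
  exact Equiv.prod_comp σ (fun p => h (J p) (I p))

end basic

end R658.NV
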