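import Mathlib
import Pool.Agent.R658.NV.Act

namespace R658.NV

open scoped BigOperators Matrix

variable {n k : ℕ}

/-- the operator `x ↦ [e_{I0 1}, …, x, …, e_{I0 n}]` (`x` at the place `p0`) -/
def Tm {R : Type*} (c : Idx n k → R) (p0 : Fin n) (I0 : Fin n → Fin k) :
    Matrix (Fin k) (Fin k) R :=
  Matrix.of fun j m => c (Function.update I0 p0 m, j)

theorem Tm_act {R : Type*} [CommRing R] (g h : Matrix (Fin k) (Fin k) R) (c : Idx n k → R)
    (p0 : Fin n) (I0 : Fin n → Fin k)
    (hh : ∀ p, ∀ i, h i (I0 p) = (1 : Matrix (Fin k) (Fin k) R) i (I0 p)) :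
    Tm (act g h c) p0 I0 = g * Tm c p0 I0 * h := by
  ext j m
  rw [Matrix.mul_assoc, Matrix.mul_apply]
  simp only [Tm, act, Matrix.of_apply]
  refine Finset.sum_congr rfl fun l _ => ?_
  congr 1
  rw [Matrix.mul_apply]
  symm
  refine Fintype.sum_of_injective (fun m' : Fin k => Function.update I0 p0 m') ?_ _ _ ?_ ?_
  · intro m1 m2 h12
    have := congrFun h12 p0
    simpa using this
  · intro J hJ
    have hex : ∃ p, p ≠ p0 ∧ J p ≠ I0 p := by
      by_contra hcon
      push Not at hcon
      apply hJ
      refine ⟨J p0, ?_⟩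
      funext p
      rcases eq_or_ne p p0 with rfl | hp
      · simp
      · simp [Function.update_of_ne hp, hcon p hp]
    obtain ⟨p, hp, hJp⟩ := hex
    have : h (J p) (Function.update I0 p0 m p) = 0 := by
      rw [Function.update_of_ne hp, hh p, Matrix.one_apply_ne hJp]
    rw [Finset.prod_eq_zero (Finset.mem_univ p) this, mul_zero]
  · intro m'
    simp only [Matrix.of_apply]
    congr 1
    rw [← Finset.mul_prod_erase _ _ (Finset.mem_univ p0)]
    have : ∏ x ∈ Finset.univ.erase p0, h (Function.update I0 p0 m' x) (Function.update I0 p0 m x) = 1 := by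
      refine Finset.prod_eq_one fun p hp => ?_
      have hp' := Finset.ne_of_mem_erase hp
      rw [Function.update_of_ne hp', Function.update_of_ne hp', hh p, Matrix.one_apply_eq]
    rw [this, mul_one, Function.update_self, Function.update_self]

theorem exists_base (hn : 0 < n) (A : Finset (Fin n)) (hk : A.card < k) :
    ∃ (p0 : Fin n) (I0 : Fin n → Fin k), (∀ p, (I0 p : ℕ) ≤ A.card - 1) ∧
      ((I0 p0 : Fin k) : ℕ) = A.card - 1 ∧
      ∀ m : Fin k, A.card - 1 ≤ (m : ℕ) → Set.InjOn (Function.update I0 p0 m) (A : Set (Fin n)) := by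
  classical
  rcases A.eq_empty_or_nonempty with rfl | hA
  · refine ⟨⟨0, hn⟩, fun _ => ⟨0, by simpa using hk⟩, fun p => by simp, by simp, fun m _ => by simp⟩
  · have ha : 0 < A.card := Finset.card_pos.mpr hA
    let e := A.equivFin
    let I0 : Fin n → Fin k := fun p => if h : p ∈ A then ⟨e ⟨p, h⟩, (e ⟨p, h⟩).isLt.trans hk⟩
      else ⟨0, ha.trans hk⟩
    have hI0 : ∀ p (h : p ∈ A), (I0 p : ℕ) = e ⟨p, h⟩ := fun p h => by simp [I0, h]
    let p0 : Fin n := (e.symm ⟨A.card - 1, by omega⟩ : A)
    have hp0 : p0 ∈ A := (e.symm ⟨A.card - 1, by omega⟩ : A).2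
    have hp0e : ((e ⟨p0, hp0⟩ : Fin A.card) : ℕ) = A.card - 1 := by
      have : (⟨p0, hp0⟩ : A) = e.symm ⟨A.card - 1, by omega⟩ := rfl
      rw [this, Equiv.apply_symm_apply]
    refine ⟨p0, I0, ?_, ?_, ?_⟩
    · intro p
      by_cases h : p ∈ A
      · rw [hI0 p h]
        have := (e ⟨p, h⟩).isLt
        omega
      · simp [I0, h]
    · rw [hI0 p0 hp0, hp0e]
    · intro m hm
      have hlt : ∀ p ∈ A, p ≠ p0 → (I0 p : ℕ) < A.card - 1 := by
        intro p hp hpp
        rw [hI0 p hp]
        have h1 := (e ⟨p, hp⟩).isLt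
        have h2 : ((e ⟨p, hp⟩ : Fin A.card) : ℕ) ≠ A.card - 1 := by
          intro h3
          rw [← hp0e] at h3
          have h4 := e.injective (Fin.ext h3)
          exact hpp (congrArg Subtype.val h4)
        omega
      intro p hp q hq hpq
      by_contra hne
      rcases eq_or_ne p p0 with hpp | hpp
      · have hqp : q ≠ p0 := fun h => hne (hpp.trans h.symm)
        rw [hpp, Function.update_self, Function.update_of_ne hqp] at hpq
        have := hlt q hq hqp
        rw [← hpq] at this
        omega
      · rcases eq_or_ne q p0 with hqp | hqp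
        · rw [hqp, Function.update_self, Function.update_of_ne hpp] at hpq
          have := hlt p hp hpp
          rw [hpq] at this
          omega
        · rw [Function.update_of_ne hpp, Function.update_of_ne hqp] at hpq
          have h5 := congrArg Fin.val hpq
          rw [hI0 p hp, hI0 q hq] at h5
          have h6 := e.injective (Fin.ext h5)
          exact hne (congrArg Subtype.val h6)

/-- an element of `W` with all possible structure constants nonzero -/
theorem exists_w1 (A C : Finset (Fin n)) (hAC : Disjoint A C) :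
    ∃ w ∈ W ℂ n k A C, ∀ (I : Fin n → Fin k) (j : Fin k), Set.InjOn I (A : Set (Fin n)) →
      (∀ p, I p < j) → w (I, j) ≠ 0 := by
  classical
  let e := A.equivFin
  let M : (Fin n → Fin k) → Matrix A A ℂ := fun I =>
    Matrix.of fun p q : A => (((I p : Fin k) : ℕ) : ℂ) ^ ((e q : Fin A.card) : ℕ)
  let w : Idx n k → ℂ := fun q => if ∀ p, q.1 p < q.2 then (M q.1).det else 0
  have hiff : ∀ (p q : Fin n) (I : Fin n → Fin k) (j : Fin k),
      (∀ r, I (Equiv.swap p q r) < j) ↔ ∀ r, I r < j := by
    intro p q I j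
    constructor
    · intro h r
      have := h (Equiv.swap p q r)
      rwa [Equiv.swap_apply_self] at this
    · intro h r
      exact h _
  refine ⟨w, ⟨?_, ?_, ?_⟩, ?_⟩
  · intro p hp q hq hpq I j
    simp only [w, hiff]
    split_ifs with h
    · have h1 : M (fun r => I (Equiv.swap p q r)) =
          (M I).submatrix (Equiv.swap (⟨p, hp⟩ : A) ⟨q, hq⟩) id := by
        ext r r'
        simp only [M, Matrix.of_apply, Matrix.submatrix_apply, id]
        congr 3
        congr 1
        rw [Equiv.swap_apply_def, Equiv.swap_apply_def]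
        split_ifs with h2 h3 h4 h5 h6 h7 <;> simp_all [Subtype.ext_iff]
      rw [h1, Matrix.det_permute, Equiv.Perm.sign_swap (by simpa [Subtype.ext_iff] using hpq)]
      simp
    · simp
  · intro p hp q hq I j
    simp only [w, hiff]
    split_ifs with h
    · congr 1
      ext r r'
      simp only [M, Matrix.of_apply]
      have h1 : Equiv.swap p q (r : Fin n) = r := by
        apply Equiv.swap_apply_of_ne_of_ne
        · intro h2
          exact Finset.disjoint_left.mp hAC r.2 (h2 ▸ hp)
        · intro h2
          exact Finset.disjoint_left.mp hAC r.2 (h2 ▸ hq)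
      rw [h1]
    · rfl
  · intro I j ⟨p, hp⟩
    simp only [w]
    rw [if_neg]
    intro h
    exact absurd (h p) (not_lt.mpr hp)
  · intro I j hI hlt
    simp only [w]
    rw [if_pos hlt]
    have h1 : M I = (Matrix.vandermonde (fun i : Fin A.card =>
        (((I (e.symm i : A) : Fin k) : ℕ) : ℂ))).submatrix e e := by
      ext p q
      simp [M, Matrix.vandermonde_apply]
    rw [h1, Matrix.det_submatrix_equiv_self, Matrix.det_vandermonde_ne_zero_iff]
    intro i i' hii
    have hii' : (((I (e.symm i : A) : Fin k) : ℕ) : ℂ) = (((I (e.symm i' : A) : Fin k) : ℕ) : ℂ) := hii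
    have h2 : I (e.symm i : A) = I (e.symm i' : A) := by
      apply Fin.ext
      exact_mod_cast hii'
    have h3 := hI (e.symm i).2 (e.symm i').2 h2
    exact e.symm.injective (Subtype.ext h3)

end R658.NV
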