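import Mathlib
import Pool.Agent.R658.NV.Defs

/-! Statement of subtask NV-CARD (finrank of the linear space `W`).

Proof idea.  Fix `a = #A`, `c = #C`.  For `I : Fin n → Fin k` and `j` with `∀ p, I p < j` the type of `(I,j)` is
`(j, image of I on A (an a-subset of {0..j-1}), multiset of values of I on C, restriction of I to the complement of A ∪ C)`,
the number of types with given `j = m` and `I` injective on `A` is `m.choose a * m.multichoose c * m^(n-a-c)`
(`Finset.card_powersetCard`, `Sym.card_sym_eq_multichoose`, functions).
For a type-function `y` put `w(I,j) = v(I) * y(type (I,j))` if `∀ p, I p < j` and `0` otherwise, where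
`v(I) = det (fun p q : A => (I p : ℂ)^(e q : ℕ))`, `e : A ≃ Fin a` (Vandermonde: `v(I) ≠ 0` iff `I` injective on `A`;
`v(I ∘ swap p q) = - v(I)` for `p ≠ q ∈ A` by `Matrix.det_permute'`/`det_permute`, and `v(I ∘ swap p q) = v(I)` for `p q ∈ C`).
This gives a linear map (types → ℂ) → W, injective (each type is attained), surjective: for `w ∈ W`,
`w(I,j)=0` unless `∀ p, I p < j` and `I` injective on `A` (char 0), and `w(I,j)/v(I)` depends only on the type,
since two `I` of the same type differ by a permutation of positions inside `A` times one inside `C`
(products of swaps: `Equiv.Perm.swap_induction_on`). -/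

namespace R658.NV

def StmtCard : Prop := ∀ (n k : ℕ) (A C : Finset (Fin n)), Disjoint A C →
  Module.finrank ℂ (W ℂ n k A C) = cardW n k A C

end R658.NV
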