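import Mathlib
import Pool.Agent.R658.NV.StmtCard

/-! # The dimension of `W ℂ n k A C` (helper916) -/

set_option autoImplicit false

namespace R658.NV

open scoped BigOperators

namespace Card

/-! ### multisets of values -/

theorem exists_perm {α β : Type*} [Fintype α] (f g : α → β)
    (h : (Finset.univ : Finset α).val.map f = (Finset.univ : Finset α).val.map g) :
    ∃ σ : Equiv.Perm α, ∀ a, f (σ a) = g a := by
  classical
  have hc : ∀ b, Fintype.card {a // g a = b} = Fintype.card {a // f a = b} := by
    intro b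
    have h1 := congrArg (Multiset.count b) h
    rw [Multiset.count_map, Multiset.count_map] at h1
    rw [Fintype.card_subtype, Fintype.card_subtype]
    simp only [Finset.card_def, Finset.filter_val]
    have e1 : Multiset.filter (fun a => g a = b) (Finset.univ : Finset α).val =
        Multiset.filter (fun a => b = g a) (Finset.univ : Finset α).val := by
      apply Multiset.filter_congr; intro a _; exact eq_comm
    have e2 : Multiset.filter (fun a => f a = b) (Finset.univ : Finset α).val =
        Multiset.filter (fun a => b = f a) (Finset.univ : Finset α).val := by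
      apply Multiset.filter_congr; intro a _; exact eq_comm
    rw [e1, e2, h1]
  have e := fun b => Fintype.equivOfCardEq (hc b)
  refine ⟨(Equiv.sigmaFiberEquiv g).symm.trans
    ((Equiv.sigmaCongrRight (fun b => e b)).trans (Equiv.sigmaFiberEquiv f)), fun a => ?_⟩
  exact ((e (g a)) ⟨a, rfl⟩).2

theorem exists_fun {α β : Type*} [Fintype α] (M : Multiset β) (h : M.card = Fintype.card α) :
    ∃ f : α → β, (Finset.univ : Finset α).val.map f = M := by
  classical
  induction M using Quotient.inductionOn with
  | _ l =>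
    have hl : l.length = Fintype.card α := h
    let e : α ≃ Fin l.length := Fintype.equivOfCardEq (by rw [hl, Fintype.card_fin])
    refine ⟨fun a => l.get (e a), ?_⟩
    have h1 : (Finset.univ : Finset α).val.map (fun a => l.get (e a)) =
        ((Finset.univ : Finset α).val.map e).map l.get := by
      rw [Multiset.map_map]; rfl
    rw [h1, Multiset.map_univ_val_equiv, Fin.univ_val_map, List.ofFn_get]
    rfl

variable {n m : ℕ}

/-- the values on `D` as a multiset -/
def mv (D : Finset (Fin n)) (I : Fin n → Fin m) : Multiset (Fin m) :=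
  (Finset.univ : Finset D).val.map (fun p : D => I p)

theorem card_mv (D : Finset (Fin n)) (I : Fin n → Fin m) :
    Multiset.card (mv D I) = D.card := by
  unfold mv
  rw [Multiset.card_map]
  exact Finset.card_univ.trans (Fintype.card_coe D)

theorem mv_perm (D : Finset (Fin n)) (I : Fin n → Fin m) (σ : Equiv.Perm (Fin n))
    (hσ : ∀ p, p ∈ D ↔ σ p ∈ D) : mv D (fun r => I (σ r)) = mv D I := by
  unfold mv
  have h1 : (Finset.univ : Finset D).val.map (fun p : D => I (σ p)) =
      ((Finset.univ : Finset D).val.map (σ.subtypePerm (p := fun x => x ∈ D) (fun p => (hσ p).symm))).map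
        (fun p : D => I p) := by
    rw [Multiset.map_map]; rfl
  rw [h1, Multiset.map_univ_val_equiv]

theorem mem_swap (D : Finset (Fin n)) (p q : Fin n) (h : p ∈ D ∧ q ∈ D ∨ p ∉ D ∧ q ∉ D)
    (r : Fin n) : r ∈ D ↔ Equiv.swap p q r ∈ D := by
  by_cases h1 : r = p
  · subst h1
    rw [Equiv.swap_apply_left]
    tauto
  · by_cases h2 : r = q
    · subst h2
      rw [Equiv.swap_apply_right]
      tauto
    · rw [Equiv.swap_apply_of_ne_of_ne h1 h2]

/-- the space of functions with the symmetries -/
def U (n m : ℕ) (A C : Finset (Fin n)) : Submodule ℂ ((Fin n → Fin m) → ℂ) where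
  carrier := {u | (∀ p ∈ A, ∀ q ∈ A, p ≠ q → ∀ I : Fin n → Fin m,
      u (fun r => I (Equiv.swap p q r)) = - u I) ∧
    (∀ p ∈ C, ∀ q ∈ C, ∀ I : Fin n → Fin m, u (fun r => I (Equiv.swap p q r)) = u I)}
  add_mem' := by
    rintro x y ⟨hx1, hx2⟩ ⟨hy1, hy2⟩
    refine ⟨fun p hp q hq hpq I => ?_, fun p hp q hq I => ?_⟩
    · simp only [Pi.add_apply, hx1 p hp q hq hpq I, hy1 p hp q hq hpq I]; ring
    · simp only [Pi.add_apply, hx2 p hp q hq I, hy2 p hp q hq I]
  zero_mem' := ⟨fun _ _ _ _ _ _ => by simp, fun _ _ _ _ _ => rfl⟩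
  smul_mem' := by
    rintro t x ⟨hx1, hx2⟩
    refine ⟨fun p hp q hq hpq I => ?_, fun p hp q hq I => ?_⟩
    · simp only [Pi.smul_apply, hx1 p hp q hq hpq I, smul_neg]
    · simp only [Pi.smul_apply, hx2 p hp q hq I]

/-- the Vandermonde function -/
noncomputable def vd (A : Finset (Fin n)) (I : Fin n → Fin m) : ℂ :=
  (Matrix.vandermonde (fun i : Fin A.card => ((I (A.equivFin.symm i) : ℕ) : ℂ))).det

theorem vd_ne (A : Finset (Fin n)) (I : Fin n → Fin m) (h : (mv A I).Nodup) : vd A I ≠ 0 := by
  unfold vd
  rw [Matrix.det_vandermonde_ne_zero_iff]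
  intro i j hij
  have h1 : I (A.equivFin.symm i) = I (A.equivFin.symm j) := by
    have hij' : ((I (A.equivFin.symm i) : ℕ) : ℂ) = ((I (A.equivFin.symm j) : ℕ) : ℂ) := hij
    apply Fin.ext
    exact_mod_cast hij'
  have h2 := Multiset.inj_on_of_nodup_map h (A.equivFin.symm i) (Finset.mem_univ _)
    (A.equivFin.symm j) (Finset.mem_univ _) h1
  exact A.equivFin.symm.injective h2

theorem vd_mem (A C : Finset (Fin n)) (hAC : Disjoint A C) : (vd A : (Fin n → Fin m) → ℂ) ∈ U n m A C := by
  refine ⟨fun p hp q hq hpq I => ?_, fun p hp q hq I => ?_⟩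
  · unfold vd
    set e := A.equivFin with he
    have hσ : ∀ i : Fin A.card, Equiv.swap p q (e.symm i : Fin n) =
        (e.symm (Equiv.swap (e ⟨p, hp⟩) (e ⟨q, hq⟩) i) : Fin n) := by
      intro i
      by_cases h1 : i = e ⟨p, hp⟩
      · subst h1; simp
      · by_cases h2 : i = e ⟨q, hq⟩
        · subst h2; simp
        · rw [Equiv.swap_apply_of_ne_of_ne h1 h2, Equiv.swap_apply_of_ne_of_ne]
          · intro h3
            apply h1
            have : e.symm i = ⟨p, hp⟩ := Subtype.ext h3
            rw [← this, Equiv.apply_symm_apply]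
          · intro h3
            apply h2
            have : e.symm i = ⟨q, hq⟩ := Subtype.ext h3
            rw [← this, Equiv.apply_symm_apply]
    have h1 : Matrix.vandermonde (fun i : Fin A.card => ((I (Equiv.swap p q (e.symm i)) : ℕ) : ℂ)) =
        (Matrix.vandermonde (fun i : Fin A.card => ((I (e.symm i) : ℕ) : ℂ))).submatrix
          (Equiv.swap (e ⟨p, hp⟩) (e ⟨q, hq⟩)) id := by
      ext i j
      simp only [Matrix.vandermonde_apply, Matrix.submatrix_apply, id_eq]
      rw [hσ]
    rw [h1, Matrix.det_permute, Equiv.Perm.sign_swap]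
    · simp
    · intro h3
      have := e.injective h3
      exact hpq (congrArg Subtype.val this)
  · unfold vd
    congr 1
    ext i j
    simp only [Matrix.vandermonde_apply]
    have hr : ((A.equivFin.symm i : A) : Fin n) ∈ A := (A.equivFin.symm i).2
    have hp' : p ∉ A := fun h => Finset.disjoint_left.1 hAC h hp
    have hq' : q ∉ A := fun h => Finset.disjoint_left.1 hAC h hq
    rw [Equiv.swap_apply_of_ne_of_ne]
    · intro h; rw [h] at hr; exact hp' hr
    · intro h; rw [h] at hr; exact hq' hr

/-- a permutation acting by a scalar -/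
def Sc (m : ℕ) (A C : Finset (Fin n)) (σ : Equiv.Perm (Fin n)) : Prop :=
  ∃ ε : ℂ, ∀ u ∈ U n m A C, ∀ I : Fin n → Fin m, u (fun r => I (σ r)) = ε * u I

theorem Sc_mul (A C : Finset (Fin n)) (σ τ : Equiv.Perm (Fin n)) (h1 : Sc m A C σ)
    (h2 : Sc m A C τ) : Sc m A C (σ * τ) := by
  obtain ⟨a, ha⟩ := h1
  obtain ⟨b, hb⟩ := h2
  refine ⟨b * a, fun u hu I => ?_⟩
  have := hb u hu (fun r => I (σ r))
  rw [ha u hu I] at this
  rw [mul_assoc, ← this]
  rfl

theorem Sc_one (A C : Finset (Fin n)) : Sc m A C 1 := ⟨1, fun u _ I => by simp⟩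

theorem Sc_A (A C : Finset (Fin n)) (τ : Equiv.Perm A) :
    Sc m A C (Equiv.Perm.ofSubtype τ) := by
  induction τ using Equiv.Perm.swap_induction_on with
  | one => rw [map_one]; exact Sc_one A C
  | swap_mul f x y hxy ih =>
    rw [map_mul]
    apply Sc_mul _ _ _ _ _ ih
    rw [Equiv.Perm.ofSubtype_swap_eq]
    refine ⟨-1, fun u hu I => ?_⟩
    rw [hu.1 x x.2 y y.2 (fun h => hxy (Subtype.ext h)) I]
    ring

theorem Sc_C (A C : Finset (Fin n)) (τ : Equiv.Perm C) :
    Sc m A C (Equiv.Perm.ofSubtype τ) := by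
  induction τ using Equiv.Perm.swap_induction_on with
  | one => rw [map_one]; exact Sc_one A C
  | swap_mul f x y hxy ih =>
    rw [map_mul]
    apply Sc_mul _ _ _ _ _ ih
    rw [Equiv.Perm.ofSubtype_swap_eq]
    refine ⟨1, fun u hu I => ?_⟩
    rw [hu.2 x x.2 y y.2 I]
    ring

/-- two functions with the same data are related by a permutation -/
theorem rel (A C : Finset (Fin n)) (hAC : Disjoint A C) (I J : Fin n → Fin m)
    (hA : mv A I = mv A J) (hC : mv C I = mv C J) (hR : ∀ p, p ∉ A ∪ C → I p = J p) :
    ∃ ε : ℂ, ∀ u ∈ U n m A C, u J = ε * u I := by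
  obtain ⟨σ, hσ⟩ := exists_perm _ _ hA
  obtain ⟨τ, hτ⟩ := exists_perm _ _ hC
  obtain ⟨ε, hε⟩ := Sc_mul (m := m) A C _ _ (Sc_A A C σ) (Sc_C A C τ)
  refine ⟨ε, fun u hu => ?_⟩
  rw [← hε u hu I]
  congr 1
  funext p
  rw [Equiv.Perm.mul_apply]
  by_cases hpA : p ∈ A
  · have hpC : p ∉ C := Finset.disjoint_left.1 hAC hpA
    rw [Equiv.Perm.ofSubtype_apply_of_not_mem τ hpC, Equiv.Perm.ofSubtype_apply_of_mem σ hpA]
    exact (hσ ⟨p, hpA⟩).symm
  · by_cases hpC : p ∈ C
    · rw [Equiv.Perm.ofSubtype_apply_of_mem τ hpC]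
      have h1 : ((τ ⟨p, hpC⟩ : C) : Fin n) ∉ A :=
        fun h => Finset.disjoint_left.1 hAC h (τ ⟨p, hpC⟩).2
      rw [Equiv.Perm.ofSubtype_apply_of_not_mem σ h1]
      exact (hτ ⟨p, hpC⟩).symm
    · rw [Equiv.Perm.ofSubtype_apply_of_not_mem τ hpC, Equiv.Perm.ofSubtype_apply_of_not_mem σ hpA]
      exact (hR p (by simp [hpA, hpC])).symm

/-- the types -/
abbrev T (n m : ℕ) (A C : Finset (Fin n)) : Type :=
  {s : Finset (Fin m) // s.card = A.card} × (Sym (Fin m) C.card × ({p // p ∉ A ∪ C} → Fin m))

theorem card_T (A C : Finset (Fin n)) (hAC : Disjoint A C) : Fintype.card (T n m A C) =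
    m.choose A.card * m.multichoose C.card * m ^ (n - A.card - C.card) := by
  rw [Fintype.card_prod, Fintype.card_prod, Fintype.card_finset_len, Fintype.card_fin,
    Sym.card_sym_eq_multichoose, Fintype.card_fin, Fintype.card_fun, Fintype.card_fin, mul_assoc]
  congr 3
  rw [Fintype.card_subtype_compl, Fintype.card_fin]
  rw [Fintype.card_coe, Finset.card_union_of_disjoint hAC]
  omega

/-- the data of a function which is injective on `A` -/
def key (A C : Finset (Fin n)) (I : Fin n → Fin m) (h : (mv A I).Nodup) : T n m A C :=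
  (⟨⟨mv A I, h⟩, card_mv A I⟩, (⟨mv C I, card_mv C I⟩, fun p => I p))

theorem key_surj (A C : Finset (Fin n)) (hAC : Disjoint A C) (t : T n m A C) :
    ∃ (I : Fin n → Fin m) (h : (mv A I).Nodup), key A C I h = t := by
  classical
  obtain ⟨⟨s, hs⟩, ⟨⟨M, hM⟩, g⟩⟩ := t
  obtain ⟨f1, hf1⟩ := exists_fun (α := A) s.val (by rw [Fintype.card_coe]; exact hs)
  obtain ⟨f2, hf2⟩ := exists_fun (α := C) M (by rw [Fintype.card_coe]; exact hM)
  let I : Fin n → Fin m := fun p => if h1 : p ∈ A then f1 ⟨p, h1⟩ else
    if h2 : p ∈ C then f2 ⟨p, h2⟩ else g ⟨p, by simp [h1, h2]⟩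
  have hA : mv A I = s.val := by
    rw [← hf1]
    unfold mv
    congr 1
    funext p
    simp only [I, dif_pos p.2]
  have hC : mv C I = M := by
    rw [← hf2]
    unfold mv
    congr 1
    funext p
    have : (p : Fin n) ∉ A := fun h => Finset.disjoint_left.1 hAC h p.2
    simp only [I, dif_neg this, dif_pos p.2]
  refine ⟨I, by rw [hA]; exact s.nodup, ?_⟩
  unfold key
  refine Prod.ext ?_ (Prod.ext ?_ ?_)
  · apply Subtype.ext
    apply Finset.val_injective
    exact hA
  · apply Subtype.ext
    exact hC
  · funext p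
    have hp := p.2
    rw [Finset.mem_union, not_or] at hp
    simp only [I, dif_neg hp.1, dif_neg hp.2]

/-- the linear map -/
noncomputable def Phi (A C : Finset (Fin n)) (hAC : Disjoint A C) : (T n m A C → ℂ) →ₗ[ℂ] U n m A C where
  toFun y := ⟨fun I => by
      classical
      exact if h : (mv A I).Nodup then vd A I * y (key A C I h) else 0, by
    have hgen : ∀ (I : Fin n → Fin m) (σ : Equiv.Perm (Fin n)) (ε : ℂ)
        (_ : vd A (fun r => I (σ r)) = ε * vd A I)
        (_ : ∀ p, p ∈ A ↔ σ p ∈ A) (_ : ∀ p, p ∈ C ↔ σ p ∈ C)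
        (_ : ∀ p, p ∉ A ∪ C → σ p = p),
        (if h : (mv A (fun r => I (σ r))).Nodup then
          vd A (fun r => I (σ r)) * y (key A C (fun r => I (σ r)) h) else 0) =
        ε * (if h : (mv A I).Nodup then vd A I * y (key A C I h) else 0) := by
      intro I σ ε h1 h2 h3 h4
      have e1 := mv_perm A I σ h2
      have e2 := mv_perm C I σ h3
      by_cases h : (mv A I).Nodup
      · have h' : (mv A (fun r => I (σ r))).Nodup := by rw [e1]; exact h
        rw [dif_pos h, dif_pos h', h1]
        have hk : key A C (fun r => I (σ r)) h' = key A C I h := by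
          unfold key
          refine Prod.ext ?_ (Prod.ext ?_ ?_)
          · apply Subtype.ext
            apply Finset.val_injective
            exact e1
          · apply Subtype.ext
            exact e2
          · funext p
            simp only
            rw [h4 p p.2]
        rw [hk]
        ring
      · have h' : ¬ (mv A (fun r => I (σ r))).Nodup := by rw [e1]; exact h
        rw [dif_neg h, dif_neg h', mul_zero]
    have hout : ∀ p q : Fin n, p ∈ A ∪ C → q ∈ A ∪ C → ∀ r, r ∉ A ∪ C → Equiv.swap p q r = r := by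
      intro p q hp hq r hr
      apply Equiv.swap_apply_of_ne_of_ne
      · intro h; rw [h] at hr; exact hr hp
      · intro h; rw [h] at hr; exact hr hq
    refine ⟨fun p hp q hq hpq I => ?_, fun p hp q hq I => ?_⟩
    · have hpC : p ∉ C := Finset.disjoint_left.1 hAC hp
      have hqC : q ∉ C := Finset.disjoint_left.1 hAC hq
      have := hgen I (Equiv.swap p q) (-1) (by
        rw [(vd_mem A C hAC).1 p hp q hq hpq I]; ring)
        (mem_swap A p q (Or.inl ⟨hp, hq⟩)) (mem_swap C p q (Or.inr ⟨hpC, hqC⟩))
        (hout p q (Finset.mem_union_left _ hp) (Finset.mem_union_left _ hq))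
      rw [neg_one_mul] at this
      convert this using 1
    · have hpA : p ∉ A := fun h => Finset.disjoint_left.1 hAC h hp
      have hqA : q ∉ A := fun h => Finset.disjoint_left.1 hAC h hq
      have := hgen I (Equiv.swap p q) 1 (by
        rw [(vd_mem A C hAC).2 p hp q hq I]; ring)
        (mem_swap A p q (Or.inr ⟨hpA, hqA⟩)) (mem_swap C p q (Or.inl ⟨hp, hq⟩))
        (hout p q (Finset.mem_union_right _ hp) (Finset.mem_union_right _ hq))
      rw [one_mul] at this
      convert this using 1⟩
  map_add' x y := by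
    apply Subtype.ext
    funext I
    show (_ : ℂ) = _ + _
    by_cases h : (mv A I).Nodup
    · simp only [dif_pos h, Pi.add_apply]; ring
    · simp only [dif_neg h, add_zero]
  map_smul' t x := by
    apply Subtype.ext
    funext I
    show (_ : ℂ) = t * _
    by_cases h : (mv A I).Nodup
    · simp only [dif_pos h, Pi.smul_apply, smul_eq_mul]; ring
    · simp only [dif_neg h, mul_zero]

theorem Phi_apply (A C : Finset (Fin n)) (hAC : Disjoint A C) (y : T n m A C → ℂ)
    (I : Fin n → Fin m) (h : (mv A I).Nodup) :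
    (Phi A C hAC y : (Fin n → Fin m) → ℂ) I = vd A I * y (key A C I h) := by
  simp only [Phi, LinearMap.coe_mk, AddHom.coe_mk, dif_pos h]

theorem Phi_apply' (A C : Finset (Fin n)) (hAC : Disjoint A C) (y : T n m A C → ℂ)
    (I : Fin n → Fin m) (h : ¬ (mv A I).Nodup) :
    (Phi A C hAC y : (Fin n → Fin m) → ℂ) I = 0 := by
  simp only [Phi, LinearMap.coe_mk, AddHom.coe_mk, dif_neg h]

theorem u_zero (A C : Finset (Fin n)) (u : (Fin n → Fin m) → ℂ) (hu : u ∈ U n m A C)
    (I : Fin n → Fin m) (h : ¬ (mv A I).Nodup) : u I = 0 := by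
  have h1 : ¬ Function.Injective (fun p : A => I p) := by
    intro hinj
    apply h
    exact Multiset.Nodup.map hinj (Finset.univ : Finset A).nodup
  rw [Function.Injective] at h1
  push Not at h1
  obtain ⟨p, q, hpq, hne⟩ := h1
  have h2 := hu.1 p p.2 q q.2 (fun h => hne (Subtype.ext h)) I
  have h3 : (fun r => I (Equiv.swap (p : Fin n) q r)) = I := by
    funext r
    by_cases h4 : r = p
    · subst h4; rw [Equiv.swap_apply_left]; exact hpq.symm
    · by_cases h5 : r = q
      · subst h5; rw [Equiv.swap_apply_right]; exact hpq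
      · rw [Equiv.swap_apply_of_ne_of_ne h4 h5]
  rw [h3] at h2
  have : (2 : ℂ) * u I = 0 := by linear_combination h2
  simpa using this

theorem Phi_bij (A C : Finset (Fin n)) (hAC : Disjoint A C) :
    Function.Bijective (Phi (m := m) A C hAC) := by
  constructor
  · rw [← LinearMap.ker_eq_bot, LinearMap.ker_eq_bot']
    intro y hy
    funext t
    obtain ⟨I, h, rfl⟩ := key_surj A C hAC t
    have h1 := Phi_apply A C hAC y I h
    rw [hy] at h1
    have h2 : vd A I * y (key A C I h) = 0 := h1.symm
    rcases mul_eq_zero.mp h2 with h3 | h3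
    · exact absurd h3 (vd_ne A I h)
    · exact h3
  · rintro ⟨u, hu⟩
    choose rep hrep hkey using key_surj (m := m) A C hAC
    refine ⟨fun t => u (rep t) / vd A (rep t), ?_⟩
    apply Subtype.ext
    funext I
    by_cases h : (mv A I).Nodup
    · rw [Phi_apply A C hAC _ I h]
      set t := key A C I h with ht
      have hk := hkey t
      have e0 : key A C (rep t) (hrep t) = key A C I h := hk
      unfold key at e0
      have a1 : mv A (rep t) = mv A I := by
        have := congrArg (fun z : T n m A C => z.1.1.val) e0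
        exact this
      have a2 : mv C (rep t) = mv C I := by
        have := congrArg (fun z : T n m A C => z.2.1.1) e0
        exact this
      have a3 : ∀ p, p ∉ A ∪ C → rep t p = I p := by
        intro p hp
        have := congrArg (fun z : T n m A C => z.2.2 ⟨p, hp⟩) e0
        exact this
      obtain ⟨ε, hε⟩ := rel A C hAC (rep t) I a1 a2 a3
      have b1 := hε u hu
      have b2 := hε (vd A) (vd_mem A C hAC)
      have b3 := vd_ne A (rep t) (hrep t)
      show vd A I * (u (rep t) / vd A (rep t)) = u I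
      rw [b1, b2]
      field_simp
    · rw [Phi_apply' A C hAC _ I h]
      exact (u_zero A C u hu I h).symm

theorem finrank_U (A C : Finset (Fin n)) (hAC : Disjoint A C) : Module.finrank ℂ (U n m A C) =
    m.choose A.card * m.multichoose C.card * m ^ (n - A.card - C.card) := by
  rw [← card_T A C hAC, ← Module.finrank_fintype_fun_eq_card ℂ]
  exact (LinearEquiv.finrank_eq (LinearEquiv.ofBijective _ (Phi_bij A C hAC))).symm

/-! ### decomposition of `W` -/

variable {k : ℕ}

/-- restriction -/
def Res (A C : Finset (Fin n)) : W ℂ n k A C →ₗ[ℂ] ((j : Fin k) → U n j A C) where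
  toFun w := fun j => ⟨fun I => w.1 (fun p => Fin.castLE j.isLt.le (I p), j),
    ⟨fun p hp q hq hpq I => w.2.1 p hp q hq hpq (fun p => Fin.castLE j.isLt.le (I p)) j,
      fun p hp q hq I => w.2.2.1 p hp q hq (fun p => Fin.castLE j.isLt.le (I p)) j⟩⟩
  map_add' x y := by
    funext j
    apply Subtype.ext
    funext I
    rfl
  map_smul' t x := by
    funext j
    apply Subtype.ext
    funext I
    rfl

theorem Res_bij (A C : Finset (Fin n)) : Function.Bijective (Res (k := k) A C) := by
  constructor
  · rw [← LinearMap.ker_eq_bot, LinearMap.ker_eq_bot']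
    rintro ⟨w, hw⟩ h0
    apply Subtype.ext
    funext ⟨I, j⟩
    show w (I, j) = 0
    by_cases h : ∀ p, I p < j
    · have h1 : w (fun p => Fin.castLE j.isLt.le (⟨I p, h p⟩ : Fin j), j) = 0 := by
        have h2 := congrArg (fun f : (j : Fin k) → U n j A C =>
          (f j).1 (fun p => (⟨I p, h p⟩ : Fin j))) h0
        exact h2
      exact h1
    · push Not at h
      exact hw.2.2 I j h
  · intro u
    classical
    refine ⟨⟨fun q => if h : ∀ p, q.1 p < q.2 then (u q.2).1 (fun p => ⟨q.1 p, h p⟩) else 0,
      ⟨fun p hp q hq hpq I j => ?_, fun p hp q hq I j => ?_, fun I j h => ?_⟩⟩, ?_⟩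
    · dsimp only
      by_cases h : ∀ r, I r < j
      · have h' : ∀ r, I (Equiv.swap p q r) < j := fun r => h _
        rw [dif_pos h, dif_pos h']
        exact (u j).2.1 p hp q hq hpq (fun p => ⟨I p, h p⟩)
      · have h' : ¬ ∀ r, I (Equiv.swap p q r) < j := by
          intro h2
          apply h
          intro r
          have := h2 (Equiv.swap p q r)
          rwa [Equiv.swap_apply_self] at this
        rw [dif_neg h, dif_neg h', neg_zero]
    · dsimp only
      by_cases h : ∀ r, I r < j
      · have h' : ∀ r, I (Equiv.swap p q r) < j := fun r => h _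
        rw [dif_pos h, dif_pos h']
        exact (u j).2.2 p hp q hq (fun p => ⟨I p, h p⟩)
      · have h' : ¬ ∀ r, I (Equiv.swap p q r) < j := by
          intro h2
          apply h
          intro r
          have := h2 (Equiv.swap p q r)
          rwa [Equiv.swap_apply_self] at this
        rw [dif_neg h, dif_neg h']
    · dsimp only
      have h' : ¬ ∀ r, I r < j := by
        push Not; exact h
      rw [dif_neg h']
    · funext j
      apply Subtype.ext
      funext I
      have h : ∀ p, Fin.castLE j.isLt.le (I p) < j := fun p => (I p).2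
      show (if h : ∀ p, Fin.castLE j.isLt.le (I p) < j then
        (u j).1 (fun p => ⟨Fin.castLE j.isLt.le (I p), h p⟩) else 0) = (u j).1 I
      rw [dif_pos h]
      rfl

end Card

open Card in
theorem stmtCard : StmtCard := by
  intro n k A C hAC
  rw [LinearEquiv.finrank_eq (LinearEquiv.ofBijective _ (Res_bij (k := k) A C)),
    Module.finrank_pi_fintype]
  unfold cardW
  rw [Finset.sum_range]
  apply Finset.sum_congr rfl
  intro j _
  exact finrank_U A C hAC

end R658.NV
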