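import Mathlib

namespace R658.NV

open scoped BigOperators Matrix

/-- If `u` is unipotent upper triangular, `R` lower triangular with nonzero diagonal entries in the
columns `≥ s` and `u * R` has entries in the subfield `K` in the columns `≥ s`, then so has `u`. -/
theorem col_mem {k : ℕ} {E : Type*} [Field E] (K : Subfield E) (u R : Matrix (Fin k) (Fin k) E)
    (s : ℕ) (hu1 : ∀ i j : Fin k, j < i → u i j = 0) (hu2 : ∀ i, u i i = 1)
    (hR : ∀ i j : Fin k, s ≤ (j : ℕ) → i < j → R i j = 0)
    (hR2 : ∀ j : Fin k, s ≤ (j : ℕ) → R j j ≠ 0)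
    (hQ : ∀ i j : Fin k, s ≤ (j : ℕ) → (u * R) i j ∈ K) :
    ∀ (d : ℕ) (j : Fin k), k - (j : ℕ) = d → s ≤ (j : ℕ) → ∀ i, u i j ∈ K := by
  intro d
  induction d using Nat.strong_induction_on with
  | _ d ih =>
    intro j hjd hsj
    have ihj : ∀ m : Fin k, j < m → ∀ i, u i m ∈ K := by
      intro m hjm i
      have h1 : (j : ℕ) < m := hjm
      have h2 := m.isLt
      exact ih (k - (m : ℕ)) (by omega) m rfl (by omega) i
    -- entries of the column `j` of `R`
    have hRm : ∀ (e : ℕ) (i : Fin k), k - (i : ℕ) = e → R i j ∈ K := by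
      intro e
      induction e using Nat.strong_induction_on with
      | _ e ihe =>
        intro i hie
        rcases lt_or_ge i j with hij | hij
        · rw [hR i j hsj hij]; exact K.zero_mem
        · have h3 := hQ i j hsj
          rw [Matrix.mul_apply, ← Finset.add_sum_erase _ _ (Finset.mem_univ i), hu2, one_mul] at h3
          have h4 : ∑ x ∈ Finset.univ.erase i, u i x * R x j ∈ K := by
            refine K.sum_mem fun x hx => ?_
            have hxi := Finset.ne_of_mem_erase hx
            rcases lt_or_gt_of_ne hxi with hlt | hgt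
            · rw [hu1 i x hlt, zero_mul]; exact K.zero_mem
            · refine K.mul_mem (ihj x (lt_of_le_of_lt hij hgt) i) ?_
              have h5 : (i : ℕ) < x := hgt
              have h6 := x.isLt
              exact ihe (k - (x : ℕ)) (by omega) x rfl
          have := K.sub_mem h3 h4
          rwa [add_sub_cancel_right] at this
    intro i
    have h3 := hQ i j hsj
    rw [Matrix.mul_apply, ← Finset.add_sum_erase _ _ (Finset.mem_univ j)] at h3
    have h4 : ∑ x ∈ Finset.univ.erase j, u i x * R x j ∈ K := by
      refine K.sum_mem fun x hx => ?_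
      have hxi := Finset.ne_of_mem_erase hx
      rcases lt_or_gt_of_ne hxi with hlt | hgt
      · rw [hR x j hsj hlt, mul_zero]; exact K.zero_mem
      · exact K.mul_mem (ihj x hgt i) (hRm _ x rfl)
    have h5 := K.sub_mem h3 h4
    rw [add_sub_cancel_right] at h5
    have h6 := K.div_mem h5 (hRm _ j rfl)
    rwa [mul_div_cancel_right₀ _ (hR2 j hsj)] at h6

end R658.NV
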