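import Mathlib
import Pool.Agent.R658.NV.Act

namespace R658.NV

open scoped BigOperators Matrix

variable {n k : ℕ}

theorem W_inj {A C : Finset (Fin n)} {w : Idx n k → ℂ} (hw : w ∈ W ℂ n k A C)
    {I : Fin n → Fin k} {j : Fin k} (h : w (I, j) ≠ 0) : Set.InjOn I (A : Set (Fin n)) := by
  intro p hp q hq hpq
  by_contra hne
  apply h
  have h1 := hw.1 p hp q hq hne I j
  have h2 : (fun r => I (Equiv.swap p q r)) = I := by
    funext r
    rcases eq_or_ne r p with rfl | hrp
    · rw [Equiv.swap_apply_left, hpq]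
    · rcases eq_or_ne r q with rfl | hrq
      · rw [Equiv.swap_apply_right, hpq]
      · rw [Equiv.swap_apply_of_ne_of_ne hrp hrq]
  rw [h2] at h1
  have h3 : (2 : ℂ) * w (I, j) = 0 := by linear_combination h1
  simpa using h3

theorem W_lt {A C : Finset (Fin n)} {w : Idx n k → ℂ} (hw : w ∈ W ℂ n k A C)
    {I : Fin n → Fin k} {j : Fin k} (h : w (I, j) ≠ 0) (p : Fin n) : I p < j := by
  by_contra hlt
  exact h (hw.2.2 I j ⟨p, not_lt.mp hlt⟩)

theorem W_card_le {A C : Finset (Fin n)} {w : Idx n k → ℂ} (hw : w ∈ W ℂ n k A C)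
    {I : Fin n → Fin k} {j : Fin k} (h : w (I, j) ≠ 0) : A.card ≤ (j : ℕ) := by
  have h1 : A.card ≤ (Finset.range (j : ℕ)).card := by
    refine Finset.card_le_card_of_injOn (fun p => (I p : ℕ)) ?_ ?_
    · intro p _
      simpa using W_lt hw h p
    · intro p hp q hq hpq
      exact W_inj hw h hp hq (Fin.ext hpq)
  simpa using h1

theorem act_mem_W {A C : Finset (Fin n)} {w : Idx n k → ℂ} (hw : w ∈ W ℂ n k A C)
    (g h : Matrix (Fin k) (Fin k) ℂ)
    (hg : ∀ i j : Fin k, i < j → A.card ≤ (j : ℕ) → g i j = 0)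
    (hh : ∀ i j : Fin k, i < j → A.card ≤ (j : ℕ) → h i j = 0) :
    act g h w ∈ W ℂ n k A C := by
  refine ⟨fun p hp q hq hpq I j => ?_, fun p hp q hq I j => ?_, fun I j hj => ?_⟩
  · rw [act_perm]
    have : (fun q' : Idx n k => w (fun r => q'.1 (Equiv.swap p q r), q'.2)) = (-1 : ℂ) • w := by
      funext q'
      rw [hw.1 p hp q hq hpq q'.1 q'.2]
      simp
    rw [this, act_smul]
    simp
  · rw [act_perm]
    have : (fun q' : Idx n k => w (fun r => q'.1 (Equiv.swap p q r), q'.2)) = w := by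
      funext q'
      rw [hw.2.1 p hp q hq q'.1 q'.2]
    rw [this]
  · obtain ⟨p, hp⟩ := hj
    refine Finset.sum_eq_zero fun l _ => ?_
    rw [Finset.mul_sum]
    refine Finset.sum_eq_zero fun J _ => ?_
    by_contra hne
    have hg' : g j l ≠ 0 := fun h0 => hne (by simp [h0])
    have hw' : w (J, l) ≠ 0 := fun h0 => hne (by simp [h0])
    have hh' : h (J p) (I p) ≠ 0 := fun h0 => hne (by
      rw [Finset.prod_eq_zero (Finset.mem_univ p) h0]; simp)
    have hl := W_card_le hw hw'
    have h1 : l ≤ j := by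
      by_contra hlt
      exact hg' (hg j l (not_le.mp hlt) hl)
    have h2 := W_lt hw hw' p
    have h3 : I p ≤ J p ∨ (I p : ℕ) < A.card := by
      by_contra hcon
      push Not at hcon
      exact hh' (hh _ _ hcon.1 hcon.2)
    rcases h3 with h3 | h3
    · exact absurd (lt_of_le_of_lt (hp.trans h3) h2) (not_lt.mpr h1)
    · have h4 : (I p : ℕ) < j := lt_of_lt_of_le h3 (hl.trans h1)
      exact absurd h4 (not_lt.mpr hp)

/-- the unipotent matrices used as a slice -/
def IsU (a : ℕ) (u : Matrix (Fin k) (Fin k) ℂ) : Prop :=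
  (∀ i : Fin k, u i i = 1) ∧ ∀ i j : Fin k, i ≠ j → ¬ (i < j ∧ a ≤ (j : ℕ)) → u i j = 0

theorem IsU.det {a : ℕ} {u : Matrix (Fin k) (Fin k) ℂ} (hu : IsU a u) : u.det = 1 := by
  have : u.BlockTriangular id := by
    intro i j hij
    exact hu.2 i j (ne_of_gt hij) (fun h => absurd h.1 (not_lt.mpr (le_of_lt hij)))
  rw [Matrix.det_of_isUpperTriangular this]
  simp [hu.1]

/-- minors: lower right corner of `G` completed by the identity -/
def Mm {R : Type*} [CommRing R] (l : Fin k) (G : Matrix (Fin k) (Fin k) R) :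
    Matrix (Fin k) (Fin k) R :=
  Matrix.of fun i m => if l ≤ i ∧ l ≤ m then G i m else if i = m then 1 else 0

theorem Mm_map {R S : Type*} [CommRing R] [CommRing S] (φ : R →+* S) (l : Fin k)
    (G : Matrix (Fin k) (Fin k) R) : (Mm l G).map φ = Mm l (G.map φ) := by
  ext i m
  simp only [Mm, Matrix.map_apply, Matrix.of_apply]
  split_ifs <;> simp

theorem Mm_one {R : Type*} [CommRing R] (l : Fin k) : Mm l (1 : Matrix (Fin k) (Fin k) R) = 1 := by
  ext i m
  simp only [Mm, Matrix.of_apply, Matrix.one_apply]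
  split_ifs <;> simp_all

theorem exists_factor (a : ℕ) (G : Matrix (Fin k) (Fin k) ℂ) (h0 : G.det ≠ 0)
    (h1 : ∀ l : Fin k, (Mm l G).det ≠ 0) :
    ∃ u p : Matrix (Fin k) (Fin k) ℂ, IsU a u ∧ p.det ≠ 0 ∧ G = u * p ∧
      (∀ i j : Fin k, i < j → a ≤ (j : ℕ) → p i j = 0) ∧
      (∀ i j : Fin k, i < j → a ≤ (j : ℕ) → p⁻¹ i j = 0) := by
  classical
  set t : Matrix (Fin k) (Fin k) ℂ := Matrix.of fun i l =>
    if a ≤ (l : ℕ) then ((Mm l G)⁻¹) i l else G⁻¹ i l with ht
  have hinv : ∀ l i, ∑ m, (Mm l G) i m * ((Mm l G)⁻¹) m l = (1 : Matrix (Fin k) (Fin k) ℂ) i l := by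
    intro l i
    have := Matrix.mul_nonsing_inv (Mm l G) (isUnit_iff_ne_zero.mpr (h1 l))
    have h2 := congrFun (congrFun this i) l
    rwa [Matrix.mul_apply] at h2
  have hlow : ∀ i l : Fin k, i < l → ((Mm l G)⁻¹) i l = 0 := by
    intro i l hil
    have h2 := hinv l i
    rw [Matrix.one_apply_ne hil.ne] at h2
    have h3 : ∀ m, (Mm l G) i m = if i = m then 1 else 0 := by
      intro m
      simp only [Mm, Matrix.of_apply]
      rw [if_neg]
      rintro ⟨h4, -⟩
      exact absurd hil (not_lt.mpr h4)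
    simpa [h3] using h2
  have hu : IsU a (G * t) := by
    have hent : ∀ i l : Fin k, a ≤ (l : ℕ) → l ≤ i → (G * t) i l = (1 : Matrix (Fin k) (Fin k) ℂ) i l := by
      intro i l hal hli
      rw [← hinv l i, Matrix.mul_apply]
      refine Finset.sum_congr rfl fun m _ => ?_
      have h5 : t m l = ((Mm l G)⁻¹) m l := by simp [ht, hal]
      rw [h5]
      rcases lt_or_ge m l with hml | hml
      · rw [hlow m l hml]; simp
      · congr 1
        simp [Mm, hli, hml]
    have hent2 : ∀ i l : Fin k, ¬ a ≤ (l : ℕ) → (G * t) i l = (1 : Matrix (Fin k) (Fin k) ℂ) i l := by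
      intro i l hal
      have := Matrix.mul_nonsing_inv G (isUnit_iff_ne_zero.mpr h0)
      have h2 := congrFun (congrFun this i) l
      rw [← h2, Matrix.mul_apply, Matrix.mul_apply]
      refine Finset.sum_congr rfl fun m _ => ?_
      have h5 : t m l = G⁻¹ m l := by simp [ht, hal]
      rw [h5]
    refine ⟨fun i => ?_, fun i j hij hnot => ?_⟩
    · by_cases hai : a ≤ (i : ℕ)
      · rw [hent i i hai le_rfl, Matrix.one_apply_eq]
      · rw [hent2 i i hai, Matrix.one_apply_eq]
    · by_cases haj : a ≤ (j : ℕ)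
      · have : j ≤ i := by
          by_contra hlt
          exact hnot ⟨not_le.mp hlt, haj⟩
        rw [hent i j haj this, Matrix.one_apply_ne hij]
      · rw [hent2 i j haj, Matrix.one_apply_ne hij]
  have hdt : t.det ≠ 0 := by
    intro h
    have := hu.det
    rw [Matrix.det_mul, h, mul_zero] at this
    exact zero_ne_one this
  have htu : IsUnit t.det := isUnit_iff_ne_zero.mpr hdt
  have hts : ∀ i j : Fin k, i < j → a ≤ (j : ℕ) → t i j = 0 := by
    intro i j hij haj
    simp only [ht, Matrix.of_apply, haj, if_true]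
    exact hlow i j hij
  have hbt : t.BlockTriangular (fun l : Fin k => OrderDual.toDual (max ((l : ℕ) + 1) a)) := by
    intro i j hij
    have h6 : max ((i : ℕ) + 1) a < max ((j : ℕ) + 1) a := hij
    have h7 : (i : ℕ) < j ∧ a ≤ (j : ℕ) := by omega
    exact hts i j h7.1 h7.2
  have : Invertible t := Matrix.invertibleOfIsUnitDet t htu
  have hbt' := Matrix.blockTriangular_inv_of_blockTriangular hbt
  refine ⟨G * t, t⁻¹, hu, ?_, ?_, ?_, ?_⟩
  · rw [Matrix.det_nonsing_inv]
    simpa using hdt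
  · rw [Matrix.mul_assoc, Matrix.mul_nonsing_inv t htu, Matrix.mul_one]
  · intro i j hij haj
    apply hbt'
    show OrderDual.toDual _ < OrderDual.toDual _
    rw [OrderDual.toDual_lt_toDual]
    have : (i : ℕ) < j := hij
    omega
  · intro i j hij haj
    rw [Matrix.nonsing_inv_nonsing_inv t htu]
    exact hts i j hij haj

theorem adj_eq (p : Matrix (Fin k) (Fin k) ℂ) (hp : p.det ≠ 0) : p.adjugate = p.det • p⁻¹ := by
  rw [Matrix.inv_def, smul_smul, Ring.inverse_eq_inv', mul_inv_cancel₀ hp, one_smul]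

theorem dens_aux (A C : Finset (Fin n)) (f : MvPolynomial (Idx n k) ℂ)
    (hf : ∀ u, IsU A.card u → ∀ w ∈ W ℂ n k A C, MvPolynomial.eval (act u u.adjugate w) f = 0)
    (G : Matrix (Fin k) (Fin k) ℂ) (h0 : G.det ≠ 0) (h1 : ∀ l : Fin k, (Mm l G).det ≠ 0)
    (w : Idx n k → ℂ) (hw : w ∈ W ℂ n k A C) :
    MvPolynomial.eval (act G G.adjugate w) f = 0 := by
  obtain ⟨u, p, hu, hp, hG, hp1, hp2⟩ := exists_factor A.card G h0 h1
  have h2 : act G G.adjugate w = act u u.adjugate (act p p.adjugate w) := by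
    rw [act_act, hG, Matrix.adjugate_mul_distrib]
  rw [h2]
  apply hf u hu
  apply act_mem_W hw _ _ hp1
  intro i j hij haj
  rw [adj_eq p hp, Matrix.smul_apply, hp2 i j hij haj, smul_zero]

theorem density (A C : Finset (Fin n)) (f : MvPolynomial (Idx n k) ℂ)
    (hf : ∀ u, IsU A.card u → ∀ w ∈ W ℂ n k A C, MvPolynomial.eval (act u u.adjugate w) f = 0)
    (g : Matrix (Fin k) (Fin k) ℂ) (w : Idx n k → ℂ) (hw : w ∈ W ℂ n k A C) :
    MvPolynomial.eval (act g g.adjugate w) f = 0 := by
  classical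
  let Gt : Matrix (Fin k) (Fin k) (Polynomial ℂ) := Matrix.of fun i j =>
    Polynomial.C ((1 : Matrix (Fin k) (Fin k) ℂ) i j) +
      Polynomial.X * Polynomial.C (g i j - (1 : Matrix (Fin k) (Fin k) ℂ) i j)
  have hGt : ∀ t : ℂ, Gt.map (Polynomial.evalRingHom t) =
      Matrix.of fun i j => (1 : Matrix (Fin k) (Fin k) ℂ) i j + t * (g i j - (1 : Matrix (Fin k) (Fin k) ℂ) i j) := by
    intro t
    ext i j
    simp [Gt]
  have hG0 : Gt.map (Polynomial.evalRingHom 0) = 1 := by
    rw [hGt]; ext i j; simp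
  have hG1 : Gt.map (Polynomial.evalRingHom 1) = g := by
    rw [hGt]; ext i j; simp
  let H : Polynomial ℂ := MvPolynomial.aeval (act Gt Gt.adjugate (fun q => Polynomial.C (w q))) f
  let Q : Polynomial ℂ := Gt.det * ∏ l, (Mm l Gt).det
  have hH : ∀ t : ℂ, H.eval t = MvPolynomial.eval
      (act (Gt.map (Polynomial.evalRingHom t)) (Gt.map (Polynomial.evalRingHom t)).adjugate w) f := by
    intro t
    have h1 : ∀ q, Polynomial.evalRingHom t (act Gt Gt.adjugate (fun q => Polynomial.C (w q)) q) =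
        act (Gt.map (Polynomial.evalRingHom t)) (Gt.map (Polynomial.evalRingHom t)).adjugate w q := by
      intro q
      rw [map_act]
      congr 1
      · rw [← RingHom.mapMatrix_apply, RingHom.map_adjugate, RingHom.mapMatrix_apply]
      · funext q; simp
    show Polynomial.evalRingHom t (MvPolynomial.aeval _ f) = _
    rw [MvPolynomial.aeval_def, MvPolynomial.hom_eval₂, MvPolynomial.eval, MvPolynomial.coe_eval₂Hom]
    congr 1
    · ext c; simp
    · funext q; exact h1 q
  have hQ : ∀ t : ℂ, Q.eval t = (Gt.map (Polynomial.evalRingHom t)).det *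
      ∏ l, (Mm l (Gt.map (Polynomial.evalRingHom t))).det := by
    intro t
    show Polynomial.evalRingHom t (Gt.det * ∏ l, (Mm l Gt).det) = _
    rw [map_mul, map_prod, RingHom.map_det, RingHom.mapMatrix_apply]
    congr 1
    refine Finset.prod_congr rfl fun l _ => ?_
    rw [RingHom.map_det, RingHom.mapMatrix_apply, Mm_map]
  have hHQ : H * Q = 0 := by
    apply Polynomial.funext
    intro t
    rw [Polynomial.eval_mul, Polynomial.eval_zero]
    by_cases hq : Q.eval t = 0
    · rw [hq, mul_zero]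
    · have hq' := hq
      rw [hQ] at hq'
      have h3 := left_ne_zero_of_mul hq'
      have h4 := Finset.prod_ne_zero_iff.mp (right_ne_zero_of_mul hq')
      rw [hH, dens_aux A C f hf _ h3 (fun l => h4 l (Finset.mem_univ l)) w hw, zero_mul]
  have hQ0 : Q ≠ 0 := by
    intro h
    have h5 := hQ 0
    rw [h, hG0] at h5
    simp [Mm_one] at h5
  have hH0 : H = 0 := (mul_eq_zero.mp hHQ).resolve_right hQ0
  have := hH 1
  rw [hH0, hG1, Polynomial.eval_zero] at this
  exact this.symm

end R658.NV
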