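import Mathlib
import Pool.Agent.R658.NV.Defs

/-! Statement of subtask NV-FLAG (description of the nilpotent structures by flags).

Proof idea.
(⊆) Let `μ` be nilpotent with bound `m`.  Claim: for `i ≤ k` there are linearly independent `v_1,…,v_i` such that
`μ x ∈ span(v_1..v_{j-1})` whenever some `x p = v_j`.  Step: given `U = span(v_1..v_i) ≠ ⊤`, among the `v ∉ U` with
`IsMonomial μ d v` choose one with `d` maximal (`d < m` as larger ones are 0; `d = 0` occurs); any product with `v` in it
is a monomial with `> d` applications, so it lies in `U` (else contradiction).  For `i = k` take the basis `e'_i := v_{k-i+1}`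
(reversed) and `g` = matrix with columns `e'_i`; `w := act g⁻¹ g (coords μ)`, i.e. `w(I,j)` = `j`-th coordinate of
`μ(e'_{I 1},…,e'_{I n})` in the basis `e'`.
(⊇) `μ` with structure constants `act g g⁻¹ w` is `μ(x) = g w(g⁻¹ x_1, …, g⁻¹ x_n)`.  With `U_r = g (span (e_j : j ≥ r))`,
`μ x ∈ U_{r+1}` if some `x p ∈ U_r`; so a monomial with `≥ N_r` applications lies in `U_r`, `N_0 = 0`, `N_{r+1} = 1 + n N_r`. -/

namespace R658.NV

def StmtFlag : Prop := ∀ (n k : ℕ) (A C : Finset (Fin n)),
  coords '' X n k A C = {c | ∃ g : Matrix (Fin k) (Fin k) ℂ, IsUnit g.det ∧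
    ∃ w ∈ W ℂ n k A C, c = act g g⁻¹ w}

end R658.NV
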