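import Mathlib
import Pool.Agent.R658.NV.Defs
import Pool.Agent.R658.NV.StmtFlag

/-! Subtask NV-FLAG: the nilpotent structures are the base changes of the strictly triangular
ones. -/

namespace R658.NV

open scoped BigOperators Matrix
open Finset

variable {n k : ℕ}

/-- conjugation of a structure by two matrices -/
noncomputable def conj (g h : Matrix (Fin k) (Fin k) ℂ) (μ : NAlg n k) : NAlg n k :=
  (Matrix.toLin' g).compMultilinearMap (μ.compLinearMap (fun _ => Matrix.toLin' h))

lemma conj_apply (g h : Matrix (Fin k) (Fin k) ℂ) (μ : NAlg n k) (x : Fin n → Fin k → ℂ) :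
    conj g h μ x = g *ᵥ μ (fun p => h *ᵥ x p) := by
  unfold conj
  simp

lemma conj_conj {g h : Matrix (Fin k) (Fin k) ℂ} (hgh : g * h = 1) (μ : NAlg n k) :
    conj g h (conj h g μ) = μ := by
  refine MultilinearMap.ext fun x => ?_
  rw [conj_apply, conj_apply, Matrix.mulVec_mulVec, hgh, Matrix.one_mulVec]
  congr 1
  funext p
  rw [Matrix.mulVec_mulVec, hgh, Matrix.one_mulVec]

lemma coords_conj (g h : Matrix (Fin k) (Fin k) ℂ) (μ : NAlg n k) :
    coords (conj g h μ) = act g h (coords μ) := by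
  funext ⟨I, j⟩
  unfold coords act
  simp only
  rw [conj_apply]
  have h1 : (fun p => h *ᵥ (Pi.single (I p) 1 : Fin k → ℂ)) =
      fun p => ∑ l : Fin k, h l (I p) • (Pi.single l 1 : Fin k → ℂ) := by
    funext p
    rw [Matrix.mulVec_single_one]
    funext a
    simp [Finset.sum_apply, Pi.single_apply]
  rw [h1, MultilinearMap.map_sum]
  have h2 : ∀ J : Fin n → Fin k, μ (fun p => h (J p) (I p) • (Pi.single (J p) 1 : Fin k → ℂ)) =
      (∏ p, h (J p) (I p)) • μ (fun p => (Pi.single (J p) 1 : Fin k → ℂ)) := fun J =>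
    μ.map_smul_univ _ _
  rw [Finset.sum_congr rfl fun J _ => h2 J]
  simp only [Matrix.mulVec, dotProduct, Finset.sum_apply, Pi.smul_apply, smul_eq_mul]
  refine Finset.sum_congr rfl fun l _ => ?_
  congr 1
  refine Finset.sum_congr rfl fun J _ => ?_
  ring

/-- the structure with given structure constants -/
noncomputable def ofC (w : Idx n k → ℂ) : NAlg n k :=
  ∑ J : Fin n → Fin k, ((MultilinearMap.mkPiAlgebra ℂ (Fin n) ℂ).compLinearMap
    (fun p => (LinearMap.proj (J p) : (Fin k → ℂ) →ₗ[ℂ] ℂ))).smulRight (fun j => w (J, j))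

lemma ofC_apply (w : Idx n k → ℂ) (x : Fin n → Fin k → ℂ) (j : Fin k) :
    ofC w x j = ∑ J : Fin n → Fin k, (∏ p, x p (J p)) * w (J, j) := by
  unfold ofC
  rw [_root_.sum_apply, Finset.sum_apply]
  refine Finset.sum_congr rfl fun J _ => ?_
  simp

lemma coords_ofC (w : Idx n k → ℂ) : coords (ofC w) = w := by
  funext ⟨I, j⟩
  unfold coords
  simp only
  rw [ofC_apply, Finset.sum_eq_single I]
  · simp
  · intro J _ hJ
    obtain ⟨p, hp⟩ : ∃ p, J p ≠ I p := by
      by_contra hcon
      push Not at hcon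
      exact hJ (funext hcon)
    rw [Finset.prod_eq_zero (mem_univ p), zero_mul]
    simp [hp]
  · intro h
    exact absurd (mem_univ _) h

lemma coords_inj {μ ν : NAlg n k} (h : coords μ = coords ν) : μ = ν := by
  refine Module.Basis.ext_multilinear (fun _ => Pi.basisFun ℂ (Fin k)) ?_
  intro I
  funext j
  have := congrFun h (I, j)
  unfold coords at this
  simpa [Pi.basisFun_apply] using this

lemma ACComm_conj {A C : Finset (Fin n)} {μ : NAlg n k} (hμ : ACComm A C μ)
    (g h : Matrix (Fin k) (Fin k) ℂ) : ACComm A C (conj g h μ) := by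
  refine ⟨fun p hp q hq hpq x => ?_, fun p hp q hq x => ?_⟩
  · rw [conj_apply, conj_apply, hμ.1 p hp q hq hpq (fun r => h *ᵥ x r), Matrix.mulVec_neg]
  · rw [conj_apply, conj_apply, hμ.2 p hp q hq (fun r => h *ᵥ x r)]

lemma ACComm_of_coords {A C : Finset (Fin n)} {μ : NAlg n k}
    (h1 : ∀ p ∈ A, ∀ q ∈ A, p ≠ q → ∀ (I : Fin n → Fin k) (j : Fin k),
      coords μ (fun r => I (Equiv.swap p q r), j) = - coords μ (I, j))
    (h2 : ∀ p ∈ C, ∀ q ∈ C, ∀ (I : Fin n → Fin k) (j : Fin k),
      coords μ (fun r => I (Equiv.swap p q r), j) = coords μ (I, j)) : ACComm A C μ := by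
  have key : ∀ (p q : Fin n) (x : Fin n → Fin k → ℂ),
      μ.domDomCongr (Equiv.swap p q) x = μ (fun r => x (Equiv.swap p q r)) := fun p q x => rfl
  refine ⟨fun p hp q hq hpq x => ?_, fun p hp q hq x => ?_⟩
  · have : μ.domDomCongr (Equiv.swap p q) = -μ := by
      apply coords_inj
      funext ⟨I, j⟩
      exact h1 p hp q hq hpq I j
    rw [← key, this]
    rfl
  · have : μ.domDomCongr (Equiv.swap p q) = μ := by
      apply coords_inj
      funext ⟨I, j⟩
      exact h2 p hp q hq I j
    rw [← key, this]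

lemma monomial_conj {g h : Matrix (Fin k) (Fin k) ℂ} (hhg : h * g = 1) {μ : NAlg n k} {d : ℕ}
    {x : Fin k → ℂ} (hx : IsMonomial (conj g h μ) d x) : IsMonomial μ d (h *ᵥ x) := by
  induction hx with
  | elem x => exact IsMonomial.elem _
  | app d x _ ih =>
    rw [conj_apply, Matrix.mulVec_mulVec, hhg, Matrix.one_mulVec]
    exact IsMonomial.app d _ ih

lemma Nilpotent_conj {g h : Matrix (Fin k) (Fin k) ℂ} (hhg : h * g = 1) {μ : NAlg n k}
    (hμ : Nilpotent μ) : Nilpotent (conj g h μ) := by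
  obtain ⟨m, hm⟩ := hμ
  refine ⟨m, fun d x hd hx => ?_⟩
  have h1 := hm d _ hd (monomial_conj hhg hx)
  have h2 : g * h = 1 := mul_eq_one_comm.1 hhg
  have h3 : g *ᵥ (h *ᵥ x) = x := by rw [Matrix.mulVec_mulVec, h2, Matrix.one_mulVec]
  rw [← h3, h1, Matrix.mulVec_zero]

/-- the bounds -/
def Nb (n : ℕ) : ℕ → ℕ
  | 0 => 0
  | r + 1 => 2 + n * Nb n r

lemma tri_step {w : Idx n k → ℂ}
    (hw : ∀ (I : Fin n → Fin k) (j : Fin k), (∃ p, j ≤ I p) → w (I, j) = 0)
    {x : Fin n → Fin k → ℂ} {p : Fin n} {r : ℕ} (hx : ∀ j : Fin k, (j : ℕ) < r → x p j = 0)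
    (j : Fin k) (hj : (j : ℕ) < r + 1) : ofC w x j = 0 := by
  rw [ofC_apply]
  refine Finset.sum_eq_zero fun J _ => ?_
  by_cases h : (J p : ℕ) < r
  · rw [Finset.prod_eq_zero (mem_univ p) (hx _ h), zero_mul]
  · rw [hw J j ⟨p, Fin.le_def.2 (by omega)⟩, mul_zero]

lemma tri_mono {w : Idx n k → ℂ}
    (hw : ∀ (I : Fin n → Fin k) (j : Fin k), (∃ p, j ≤ I p) → w (I, j) = 0) (r : ℕ) :
    ∀ (d : ℕ) (x : Fin k → ℂ), Nb n r ≤ d → IsMonomial (ofC w) d x →
      ∀ j : Fin k, (j : ℕ) < r → x j = 0 := by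
  induction r with
  | zero => intro d x _ _ j hj; omega
  | succ r ih =>
    intro d x hd hx
    cases hx with
    | elem x => simp [Nb] at hd
    | app d x hx =>
      have h1 : ∃ p, Nb n r < d p := by
        by_contra hcon
        push Not at hcon
        have h2 : ∑ p, d p ≤ ∑ _p : Fin n, Nb n r := Finset.sum_le_sum fun p _ => hcon p
        rw [Finset.sum_const, Finset.card_univ, Fintype.card_fin, smul_eq_mul] at h2
        unfold Nb at hd
        omega
      obtain ⟨p, hp⟩ := h1
      intro j hj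
      exact tri_step hw (p := p) (ih (d p) (x p) hp.le (hx p)) j hj

lemma tri_nilp {w : Idx n k → ℂ}
    (hw : ∀ (I : Fin n → Fin k) (j : Fin k), (∃ p, j ≤ I p) → w (I, j) = 0) :
    Nilpotent (ofC w) :=
  ⟨Nb n k, fun d x hd hx => funext fun j => tri_mono hw k d x hd hx j j.2⟩

/-! ### the flag -/

lemma flag_exists {μ : NAlg n k} (hμ : Nilpotent μ) (i : ℕ) (hi : i ≤ k) :
    ∃ v : Fin i → Fin k → ℂ, LinearIndependent ℂ v ∧
      ∀ (j : Fin i) (p : Fin n) (x : Fin n → Fin k → ℂ), x p = v j →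
        μ x ∈ Submodule.span ℂ (v '' Set.Iio j) := by
  induction i with
  | zero => exact ⟨fun i => i.elim0, linearIndependent_empty_type, fun j => j.elim0⟩
  | succ i ih =>
    obtain ⟨v, hv, hv'⟩ := ih (by omega)
    obtain ⟨m, hm⟩ := hμ
    set U := Submodule.span ℂ (Set.range v) with hU
    have hUt : U ≠ ⊤ := by
      intro h
      have h1 : Module.finrank ℂ U = i := by
        rw [hU, finrank_span_eq_card hv, Fintype.card_fin]
      rw [h, finrank_top, Module.finrank_fin_fun] at h1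
      omega
    obtain ⟨z, hz⟩ : ∃ z, z ∉ U := by
      by_contra hcon
      push Not at hcon
      exact hUt (eq_top_iff.2 fun z _ => hcon z)
    let S : Set ℕ := {d | ∃ y, y ∉ U ∧ IsMonomial μ d y}
    have hS0 : (0 : ℕ) ∈ S := ⟨z, hz, IsMonomial.elem z⟩
    have hSb : BddAbove S := by
      refine ⟨m, ?_⟩
      rintro d ⟨y, hy, hy'⟩
      by_contra hcon
      apply hy
      rw [hm d y (by omega) hy']
      exact U.zero_mem
    obtain ⟨y, hy, hy'⟩ := Nat.sSup_mem ⟨0, hS0⟩ hSb
    set D := sSup S with hD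
    refine ⟨Fin.snoc v y, ?_, ?_⟩
    · exact linearIndependent_finSnoc.2 ⟨hv, hy⟩
    · intro j p x hx
      refine Fin.lastCases ?_ (fun j' => ?_) j (motive := fun j => x p = (Fin.snoc v y : Fin (i + 1) → Fin k → ℂ) j →
        μ x ∈ Submodule.span ℂ ((Fin.snoc v y : Fin (i + 1) → Fin k → ℂ) '' Set.Iio j)) hx
      · intro hx
        rw [Fin.snoc_last] at hx
        have h1 : μ x ∈ U := by
          by_contra hcon
          have h2 : IsMonomial μ (1 + ∑ q, (if q = p then D else 0)) (μ x) := by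
            refine IsMonomial.app _ x fun q => ?_
            by_cases hq : q = p
            · rw [if_pos hq, hq, hx]
              exact hy'
            · rw [if_neg hq]
              exact IsMonomial.elem _
          rw [Finset.sum_ite_eq' univ p, if_pos (mem_univ _)] at h2
          have h3 : 1 + D ∈ S := ⟨μ x, hcon, h2⟩
          have := le_csSup hSb h3
          omega
        refine Submodule.span_mono ?_ h1
        rintro _ ⟨l, rfl⟩
        exact ⟨l.castSucc, Fin.castSucc_lt_last l, Fin.snoc_castSucc (α := fun _ => Fin k → ℂ) _ _ l⟩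
      · intro hx
        rw [Fin.snoc_castSucc] at hx
        refine Submodule.span_mono ?_ (hv' j' p x hx)
        rintro _ ⟨l, hl, rfl⟩
        exact ⟨l.castSucc, hl, Fin.snoc_castSucc (α := fun _ => Fin k → ℂ) _ _ l⟩

theorem stmtFlag : StmtFlag := by
  intro n k A C
  ext c
  simp only [Set.mem_image, Set.mem_ofPred_eq]
  constructor
  · rintro ⟨μ, ⟨hμ1, hμ2⟩, rfl⟩
    obtain ⟨v, hv, hv'⟩ := flag_exists hμ2 k le_rfl
    let g : Matrix (Fin k) (Fin k) ℂ := Matrix.of fun a b => v (Fin.rev b) a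
    have hgc : ∀ b, g *ᵥ (Pi.single b 1 : Fin k → ℂ) = v (Fin.rev b) := by
      intro b
      rw [Matrix.mulVec_single_one]
      rfl
    have hgu : IsUnit g := by
      rw [← Matrix.linearIndependent_cols_iff_isUnit]
      exact hv.comp Fin.rev Fin.rev_injective
    have hgd : IsUnit g.det := (Matrix.isUnit_iff_isUnit_det g).1 hgu
    refine ⟨g, hgd, coords (conj g⁻¹ g μ), ?_, ?_⟩
    · have hac := ACComm_conj hμ1 g⁻¹ g
      refine ⟨fun p hp q hq hpq I j => ?_, fun p hp q hq I j => ?_, fun I j h => ?_⟩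
      · have := congrFun (hac.1 p hp q hq hpq (fun r => Pi.single (I r) 1)) j
        exact this
      · have := congrFun (hac.2 p hp q hq (fun r => Pi.single (I r) 1)) j
        exact this
      · obtain ⟨p, hp⟩ := h
        unfold coords
        simp only
        rw [conj_apply]
        have h1 := hv' (Fin.rev (I p)) p (fun p => g *ᵥ (Pi.single (I p) 1 : Fin k → ℂ)) (hgc _)
        have h2 : ∀ y ∈ Submodule.span ℂ (v '' Set.Iio (Fin.rev (I p))), (g⁻¹ *ᵥ y) j = 0 := by
          intro y hy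
          induction hy using Submodule.span_induction with
          | mem y hy =>
            obtain ⟨l, hl, rfl⟩ := hy
            have h3 : v l = g *ᵥ (Pi.single (Fin.rev l) 1 : Fin k → ℂ) := by
              rw [hgc, Fin.rev_rev]
            rw [h3, Matrix.mulVec_mulVec, Matrix.nonsing_inv_mul _ hgd, Matrix.one_mulVec]
            have h4 : I p < Fin.rev l := by
              rw [Set.mem_Iio] at hl
              exact Fin.lt_rev_iff.1 hl
            exact Pi.single_eq_of_ne (ne_of_lt (lt_of_le_of_lt hp h4)) _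
          | zero => rw [Matrix.mulVec_zero]; rfl
          | add y z _ _ hy hz => rw [Matrix.mulVec_add, Pi.add_apply, hy, hz, add_zero]
          | smul t y _ hy => rw [Matrix.mulVec_smul, Pi.smul_apply, hy, smul_zero]
        exact h2 _ h1
    · rw [← coords_conj, conj_conj (Matrix.mul_nonsing_inv _ hgd)]
  · rintro ⟨g, hg, w, ⟨hw1, hw2, hw3⟩, rfl⟩
    refine ⟨conj g g⁻¹ (ofC w), ⟨?_, ?_⟩, ?_⟩
    · refine ACComm_conj (ACComm_of_coords ?_ ?_) _ _
      · rw [coords_ofC]; exact hw1
      · rw [coords_ofC]; exact hw2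
    · exact Nilpotent_conj (Matrix.nonsing_inv_mul _ hg) (tri_nilp hw3)
    · rw [coords_conj, coords_ofC]

end R658.NV
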