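import Mathlib
import Pool.Agent.Helper834.EC.Dim1

namespace R658.NV

open scoped BigOperators
open MvPolynomial

/-- A polynomial parametrisation whose parameters are rational functions of the image point:
the Krull dimension of the coordinate ring is the number of parameters. -/
theorem dim_of_param {σ τ : Type} [Finite σ] [Finite τ] (Φ : σ → MvPolynomial τ ℂ)
    (I : Ideal (MvPolynomial σ ℂ)) (hI : ∀ f, f ∈ I ↔ aeval Φ f = 0)
    (hK : ∀ t : τ, algebraMap (MvPolynomial τ ℂ) (FractionRing (MvPolynomial τ ℂ)) (X t) ∈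
      IntermediateField.adjoin ℂ (Set.range fun q =>
        algebraMap (MvPolynomial τ ℂ) (FractionRing (MvPolynomial τ ℂ)) (Φ q))) :
    ringKrullDim (MvPolynomial σ ℂ ⧸ I) = (Nat.card τ : WithBot ℕ∞) := by
  classical
  have hker : I = RingHom.ker (aeval Φ : MvPolynomial σ ℂ →ₐ[ℂ] MvPolynomial τ ℂ) := by
    ext f
    rw [hI, RingHom.mem_ker]
  have hprime : I.IsPrime := by
    rw [hker]; exact RingHom.ker_isPrime _
  have : IsDomain (MvPolynomial σ ℂ ⧸ I) := Ideal.Quotient.isDomain I
  obtain ⟨s, hs1, hs2⟩ := Pool.Agent.Helper834.EC.exists_ringKrullDim_eq_trdeg ℂ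
    (MvPolynomial σ ℂ ⧸ I)
  rw [hs1]
  let S := MvPolynomial τ ℂ
  let ψ : (MvPolynomial σ ℂ ⧸ I) →ₐ[ℂ] S := Ideal.Quotient.liftₐ I (aeval Φ) (fun f hf => (hI f).mp hf)
  have hψ : Function.Injective ψ := by
    rw [injective_iff_map_eq_zero]
    intro x hx
    obtain ⟨f, rfl⟩ := Ideal.Quotient.mk_surjective x
    have : aeval Φ f = 0 := hx
    exact Ideal.Quotient.eq_zero_iff_mem.mpr ((hI f).mpr this)
  letI : Algebra (MvPolynomial σ ℂ ⧸ I) S := ψ.toRingHom.toAlgebra
  have hST : IsScalarTower ℂ (MvPolynomial σ ℂ ⧸ I) S := IsScalarTower.of_algebraMap_eq (fun x => by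
    show algebraMap ℂ S x = ψ (algebraMap ℂ _ x)
    rw [AlgHom.commutes])
  have hF : FaithfulSMul (MvPolynomial σ ℂ ⧸ I) S := by
    rw [faithfulSMul_iff_algebraMap_injective]
    exact hψ
  have hmapq : ∀ f : MvPolynomial σ ℂ, algebraMap (MvPolynomial σ ℂ ⧸ I) S (Ideal.Quotient.mk I f) =
      aeval Φ f := fun f => rfl
  have halgX : ∀ t : τ, IsAlgebraic (MvPolynomial σ ℂ ⧸ I) (X t : S) := by
    intro t
    obtain ⟨r, r', hr⟩ := (IntermediateField.mem_adjoin_range_iff _ _ _).mp (hK t)
    have hcomp : ∀ f : MvPolynomial σ ℂ, aeval (fun q => algebraMap (MvPolynomial τ ℂ)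
        (FractionRing (MvPolynomial τ ℂ)) (Φ q)) f =
        algebraMap (MvPolynomial τ ℂ) (FractionRing (MvPolynomial τ ℂ)) (aeval Φ f) := by
      intro f
      have := MvPolynomial.aeval_algebraMap_apply (R := ℂ) (FractionRing (MvPolynomial τ ℂ)) Φ f
      exact this
    rw [hcomp, hcomp] at hr
    by_cases h0 : aeval Φ r' = 0
    · rw [h0, map_zero, div_zero] at hr
      exact absurd ((IsFractionRing.injective (MvPolynomial τ ℂ) (FractionRing (MvPolynomial τ ℂ)))
        (hr.trans (map_zero _).symm)) (X_ne_zero t)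
    · have h1 : algebraMap (MvPolynomial τ ℂ) (FractionRing (MvPolynomial τ ℂ)) (aeval Φ r') ≠ 0 := by
        intro h
        exact h0 ((IsFractionRing.injective (MvPolynomial τ ℂ) (FractionRing (MvPolynomial τ ℂ)))
          (h.trans (map_zero _).symm))
      rw [eq_div_iff h1, ← map_mul] at hr
      have h2 := IsFractionRing.injective (MvPolynomial τ ℂ) (FractionRing (MvPolynomial τ ℂ)) hr
      refine ⟨Polynomial.C (Ideal.Quotient.mk I r') * Polynomial.X -
        Polynomial.C (Ideal.Quotient.mk I r), ?_, ?_⟩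
      · intro h3
        have h4 := congrArg (fun P => Polynomial.coeff P 1) h3
        simp only [Polynomial.coeff_sub, Polynomial.coeff_C_mul, Polynomial.coeff_X_one, mul_one,
          Polynomial.coeff_C_succ, sub_zero, Polynomial.coeff_zero] at h4
        have h5 := congrArg (algebraMap (MvPolynomial σ ℂ ⧸ I) S) h4
        rw [hmapq, map_zero] at h5
        exact h0 h5
      · rw [map_sub, map_mul, Polynomial.aeval_C, Polynomial.aeval_C, Polynomial.aeval_X, hmapq,
          hmapq, ← h2, mul_comm, sub_self]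
  have halg : Algebra.IsAlgebraic (MvPolynomial σ ℂ ⧸ I) S := by
    refine ⟨fun x => ?_⟩
    induction x using MvPolynomial.induction_on with
    | C a =>
      have h6 : (C a : S) = algebraMap (MvPolynomial σ ℂ ⧸ I) S (algebraMap ℂ _ a) := by
        rw [← IsScalarTower.algebraMap_apply]; rfl
      rw [h6]
      exact isAlgebraic_algebraMap _
    | add p1 p2 hp1 hp2 => exact hp1.add hp2
    | mul_X p i hp => exact hp.mul (halgX i)
  have h7 := trdeg_add_eq ℂ (MvPolynomial σ ℂ ⧸ I) (A := S)
  rw [hs2, trdeg_eq_zero, add_zero, MvPolynomial.trdeg_of_isDomain] at h7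
  have h8 : s = Nat.card τ := by
    have h9 := congrArg Cardinal.toNat h7
    simpa [Nat.card] using h9
  rw [h8]

end R658.NV
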