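import Mathlib
import Pool.Agent.R658.NV.Dens
import Pool.Agent.R658.NV.Col
import Pool.Agent.R658.NV.Base
import Pool.Agent.R658.NV.Param

namespace R658.NV

open scoped BigOperators Matrix
open MvPolynomial

variable {n k : ℕ}

/-- the parameters of the unipotent matrix -/
abbrev T1 (k a : ℕ) := {q : Fin k × Fin k // q.1 < q.2 ∧ a ≤ (q.2 : ℕ)}

/-- all parameters -/
abbrev TT (n k : ℕ) (A C : Finset (Fin n)) :=
  T1 k A.card ⊕ Fin (Module.finrank ℂ (W ℂ n k A C))

variable (A C : Finset (Fin n))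

noncomputable def bW (n k : ℕ) (A C : Finset (Fin n)) :
    Module.Basis (Fin (Module.finrank ℂ (W ℂ n k A C))) ℂ (W ℂ n k A C) :=
  Module.finBasis ℂ (W ℂ n k A C)

noncomputable def ugen (n k : ℕ) (A C : Finset (Fin n)) :
    Matrix (Fin k) (Fin k) (MvPolynomial (TT n k A C) ℂ) :=
  Matrix.of fun i j => if h : i < j ∧ A.card ≤ (j : ℕ) then MvPolynomial.X (Sum.inl ⟨(i, j), h⟩)
    else (1 : Matrix (Fin k) (Fin k) (MvPolynomial (TT n k A C) ℂ)) i j

noncomputable def wgen (n k : ℕ) (A C : Finset (Fin n)) :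
    Idx n k → MvPolynomial (TT n k A C) ℂ :=
  fun q => ∑ t, MvPolynomial.X (Sum.inr t) * MvPolynomial.C ((bW n k A C t : Idx n k → ℂ) q)

noncomputable def Phi (n k : ℕ) (A C : Finset (Fin n)) :
    Idx n k → MvPolynomial (TT n k A C) ℂ :=
  act (ugen n k A C) (ugen n k A C).adjugate (wgen n k A C)

theorem ugen_eval (y : TT n k A C → ℂ) (i j : Fin k) :
    (ugen n k A C).map (MvPolynomial.eval y) i j =
      if h : i < j ∧ A.card ≤ (j : ℕ) then y (Sum.inl ⟨(i, j), h⟩)
      else (1 : Matrix (Fin k) (Fin k) ℂ) i j := by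
  simp only [ugen, Matrix.map_apply, Matrix.of_apply]
  split_ifs with h
  · simp
  · rw [Matrix.one_apply, Matrix.one_apply]
    split_ifs <;> simp

theorem ugen_isU (y : TT n k A C → ℂ) : IsU A.card ((ugen n k A C).map (MvPolynomial.eval y)) := by
  refine ⟨fun i => ?_, fun i j hij hnot => ?_⟩
  · rw [ugen_eval, dif_neg (fun h => lt_irrefl _ h.1), Matrix.one_apply_eq]
  · rw [ugen_eval, dif_neg hnot, Matrix.one_apply_ne hij]

theorem wgen_eval (y : TT n k A C → ℂ) :
    (fun q => MvPolynomial.eval y (wgen n k A C q)) =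
      ((∑ t, y (Sum.inr t) • bW n k A C t : W ℂ n k A C) : Idx n k → ℂ) := by
  funext q
  simp [wgen, Submodule.coe_sum, Finset.sum_apply]

theorem phi_eval (y : TT n k A C → ℂ) (q : Idx n k) :
    MvPolynomial.eval y (Phi n k A C q) =
      act ((ugen n k A C).map (MvPolynomial.eval y)) ((ugen n k A C).map (MvPolynomial.eval y)).adjugate
        ((∑ t, y (Sum.inr t) • bW n k A C t : W ℂ n k A C) : Idx n k → ℂ) q := by
  rw [Phi, map_act, ← wgen_eval]
  congr 1
  rw [← RingHom.mapMatrix_apply, RingHom.map_adjugate, RingHom.mapMatrix_apply]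

theorem phi_surj (u : Matrix (Fin k) (Fin k) ℂ) (hu : IsU A.card u) (w : Idx n k → ℂ)
    (hw : w ∈ W ℂ n k A C) : ∃ y : TT n k A C → ℂ,
      act u u.adjugate w = fun q => MvPolynomial.eval y (Phi n k A C q) := by
  let y : TT n k A C → ℂ := Sum.elim (fun q => u q.1.1 q.1.2) (fun t => (bW n k A C).repr ⟨w, hw⟩ t)
  refine ⟨y, ?_⟩
  funext q
  rw [phi_eval]
  have h1 : (ugen n k A C).map (MvPolynomial.eval y) = u := by
    ext i j
    rw [ugen_eval]
    split_ifs with h
    · rfl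
    · rcases eq_or_ne i j with rfl | hij
      · rw [Matrix.one_apply_eq, hu.1]
      · rw [Matrix.one_apply_ne hij, hu.2 i j hij h]
  have h2 : (∑ t, y (Sum.inr t) • bW n k A C t : W ℂ n k A C) = ⟨w, hw⟩ :=
    (bW n k A C).sum_repr ⟨w, hw⟩
  rw [h1, h2]

omit A C in
theorem aev {σ : Type*} (x : σ → ℂ) (f : MvPolynomial σ ℂ) :
    (MvPolynomial.aeval x : MvPolynomial σ ℂ →ₐ[ℂ] ℂ) f = MvPolynomial.eval x f := rfl

theorem mem_ideal_iff (f : MvPolynomial (Idx n k) ℂ) :
    f ∈ MvPolynomial.vanishingIdeal ℂ {c : Idx n k → ℂ | ∃ g : Matrix (Fin k) (Fin k) ℂ,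
      IsUnit g.det ∧ ∃ w ∈ W ℂ n k A C, c = act g g⁻¹ w} ↔ aeval (Phi n k A C) f = 0 := by
  have hae : ∀ y : TT n k A C → ℂ, MvPolynomial.eval y (aeval (Phi n k A C) f) =
      MvPolynomial.eval (fun q => MvPolynomial.eval y (Phi n k A C q)) f := by
    intro y
    rw [MvPolynomial.aeval_def, MvPolynomial.hom_eval₂, MvPolynomial.eval,
      MvPolynomial.coe_eval₂Hom, MvPolynomial.eval, MvPolynomial.coe_eval₂Hom]
    congr 1
    ext c; simp
  constructor
  · intro hf
    apply MvPolynomial.funext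
    intro y
    rw [hae, map_zero]
    have h1 : (fun q => MvPolynomial.eval y (Phi n k A C q)) ∈
        {c : Idx n k → ℂ | ∃ g : Matrix (Fin k) (Fin k) ℂ,
      IsUnit g.det ∧ ∃ w ∈ W ℂ n k A C, c = act g g⁻¹ w} := by
      have hu := ugen_isU A C y (k := k)
      refine ⟨(ugen n k A C).map (MvPolynomial.eval y), by rw [hu.det]; exact isUnit_one,
        _, (∑ t, y (Sum.inr t) • bW n k A C t : W ℂ n k A C).2, ?_⟩
      funext q
      rw [phi_eval, adj_eq _ (by rw [hu.det]; exact one_ne_zero), hu.det, one_smul]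
    have h2 := (MvPolynomial.mem_vanishingIdeal_iff).mp hf _ h1
    rwa [aev] at h2
  · intro hf
    rw [MvPolynomial.mem_vanishingIdeal_iff]
    rintro c ⟨g, hg, w, hw, rfl⟩
    have h0 : ∀ u, IsU A.card u → ∀ w ∈ W ℂ n k A C,
        MvPolynomial.eval (act u u.adjugate w) f = 0 := by
      intro u hu w hw
      obtain ⟨y, hy⟩ := phi_surj A C u hu w hw
      rw [hy, ← hae, hf, map_zero]
    have hdet : g.det ≠ 0 := hg.ne_zero
    have h3 := density A C f h0 g ((g.det⁻¹) ^ n • w) (Submodule.smul_mem _ _ hw)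
    rw [adj_eq g hdet, act_smul_right, smul_smul, ← mul_pow, mul_inv_cancel₀ hdet, one_pow,
      one_smul] at h3
    rw [aev]
    exact h3

end R658.NV
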