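import Mathlib
import Pool.Agent.R658.NV.Gen

namespace R658.NV

open scoped BigOperators Matrix

variable {n k : ℕ}

section field

variable {E : Type*} [Field E] (K : Subfield E)

theorem act_mem {g h : Matrix (Fin k) (Fin k) E} (hg : ∀ i j, g i j ∈ K) (hh : ∀ i j, h i j ∈ K)
    {c : Idx n k → E} (hc : ∀ q, c q ∈ K) (q : Idx n k) : act g h c q ∈ K := by
  refine K.sum_mem fun l _ => K.mul_mem (hg _ _) (K.sum_mem fun J _ => K.mul_mem (hc _) ?_)
  exact K.prod_mem fun p _ => hh _ _

theorem adj_mem {u : Matrix (Fin k) (Fin k) E} (hu : ∀ i j, u i j ∈ K) (i j : Fin k) :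
    u.adjugate i j ∈ K := by
  let u' : Matrix (Fin k) (Fin k) K := Matrix.of fun i j => ⟨u i j, hu i j⟩
  have h1 : u = K.subtype.mapMatrix u' := by ext i j; rfl
  rw [h1, ← RingHom.map_adjugate]
  exact (u'.adjugate i j).2

theorem mul_mem' {u v : Matrix (Fin k) (Fin k) E} (hu : ∀ i j, u i j ∈ K) (hv : ∀ i j, v i j ∈ K)
    (i j : Fin k) : (u * v) i j ∈ K := by
  rw [Matrix.mul_apply]
  exact K.sum_mem fun m _ => K.mul_mem (hu _ _) (hv _ _)

theorem pow_mem' {u : Matrix (Fin k) (Fin k) E} (hu : ∀ i j, u i j ∈ K) (t : ℕ)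
    (i j : Fin k) : (u ^ t) i j ∈ K := by
  induction t generalizing i j with
  | zero =>
    rw [pow_zero, Matrix.one_apply]
    split_ifs
    · exact K.one_mem
    · exact K.zero_mem
  | succ t ih =>
    rw [pow_succ]
    exact mul_mem' K ih hu i j

theorem u_mem (a : ℕ) (u : Matrix (Fin k) (Fin k) E) (hu1 : ∀ i j : Fin k, j < i → u i j = 0)
    (hu2 : ∀ i, u i i = 1)
    (hu3 : ∀ i j : Fin k, (j : ℕ) ≤ a - 1 → u i j = (1 : Matrix (Fin k) (Fin k) E) i j)
    (w : Idx n k → E) (hw : ∀ (I : Fin n → Fin k) (j : Fin k), (∃ p, j ≤ I p) → w (I, j) = 0)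
    (p0 : Fin n) (I0 : Fin n → Fin k) (hI : ∀ p, (I0 p : ℕ) ≤ a - 1)
    (hI0 : ((I0 p0 : Fin k) : ℕ) = a - 1)
    (hne : ∀ m m' : Fin k, a - 1 ≤ (m : ℕ) → (m' : ℕ) = m + 1 →
      w (Function.update I0 p0 m, m') ≠ 0)
    (hc : ∀ q, act u u.adjugate w q ∈ K) : ∀ i j, u i j ∈ K := by
  classical
  have hut : u.BlockTriangular id := fun i j hij => hu1 i j hij
  have hdet : u.det = 1 := by
    rw [Matrix.det_of_isUpperTriangular hut]
    simp [hu2]
  have hadj : u.adjugate * u = 1 := by rw [Matrix.adjugate_mul, hdet, one_smul]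
  have hadjcol : ∀ i j : Fin k, (j : ℕ) ≤ a - 1 →
      u.adjugate i j = (1 : Matrix (Fin k) (Fin k) E) i j := by
    intro i j hj
    rw [← hadj, Matrix.mul_apply]
    have h1 : ∀ m, u m j = (1 : Matrix (Fin k) (Fin k) E) m j := fun m => hu3 m j hj
    simp only [h1, Matrix.one_apply]
    simp
  set T := Tm w p0 I0 with hT
  set s' : Fin k := I0 p0 with hs'
  have hTc : Tm (act u u.adjugate w) p0 I0 = u * T * u.adjugate :=
    Tm_act u u.adjugate w p0 I0 (fun p i => hadjcol i _ (hI p))
  have hpow : ∀ t : ℕ, (u * T * u.adjugate) ^ t = u * T ^ t * u.adjugate := by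
    intro t
    induction t with
    | zero => rw [pow_zero, pow_zero, Matrix.mul_one, Matrix.mul_adjugate, hdet, one_smul]
    | succ t ih =>
      rw [pow_succ, ih, pow_succ]
      calc u * T ^ t * u.adjugate * (u * T * u.adjugate)
          = u * T ^ t * (u.adjugate * u) * T * u.adjugate := by simp only [Matrix.mul_assoc]
        _ = u * (T ^ t * T) * u.adjugate := by rw [hadj]; simp only [Matrix.mul_assoc, Matrix.mul_one]
  have hTl : ∀ i m : Fin k, i ≤ m → T i m = 0 := by
    intro i m him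
    exact hw _ _ ⟨p0, by simpa using him⟩
  have hTd : ∀ m m' : Fin k, a - 1 ≤ (m : ℕ) → (m' : ℕ) = m + 1 → T m' m ≠ 0 := by
    intro m m' h1 h2
    exact hne m m' h1 h2
  -- shape of the powers
  have hTp : ∀ (t : ℕ) (i : Fin k), ((i : ℕ) < a - 1 + t → (T ^ t) i s' = 0) ∧
      ((i : ℕ) = a - 1 + t → (T ^ t) i s' ≠ 0) := by
    intro t
    induction t with
    | zero =>
      intro i
      rw [pow_zero]
      constructor
      · intro h
        apply Matrix.one_apply_ne
        intro h2
        rw [h2, hI0] at h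
        omega
      · intro h
        have : i = s' := Fin.ext (by rw [h, hI0]; rfl)
        rw [this, Matrix.one_apply_eq]
        exact one_ne_zero
    | succ t ih =>
      intro i
      rw [pow_succ', Matrix.mul_apply]
      constructor
      · intro h
        refine Finset.sum_eq_zero fun m _ => ?_
        rcases lt_or_ge (m : ℕ) (a - 1 + t) with h1 | h1
        · rw [(ih m).1 h1, mul_zero]
        · rw [hTl i m (by show (i : ℕ) ≤ m; omega), zero_mul]
      · intro h
        have hlt : a - 1 + t < k := by have := i.isLt; omega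
        rw [Finset.sum_eq_single (⟨a - 1 + t, hlt⟩ : Fin k)]
        · refine mul_ne_zero (hTd _ _ ?_ ?_) ((ih _).2 rfl)
          · show a - 1 ≤ a - 1 + t
            omega
          · show (i : ℕ) = a - 1 + t + 1
            omega
        · intro m _ hm
          have hm' : (m : ℕ) ≠ a - 1 + t := fun h3 => hm (Fin.ext h3)
          rcases lt_or_ge (m : ℕ) (a - 1 + t) with h1 | h1
          · rw [(ih m).1 h1, mul_zero]
          · rw [hTl i m (by show (i : ℕ) ≤ m; omega), zero_mul]
        · intro h3; exact absurd (Finset.mem_univ _) h3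
  let R : Matrix (Fin k) (Fin k) E := Matrix.of fun i j => (T ^ ((j : ℕ) - (a - 1))) i s'
  have hmem : ∀ i j : Fin k, a - 1 ≤ (j : ℕ) → (u * R) i j ∈ K := by
    intro i j _
    have h1 : (u * R) i j = (u * T ^ ((j : ℕ) - (a - 1))) i s' := by
      rw [Matrix.mul_apply, Matrix.mul_apply]
      rfl
    have h2 : (u * T ^ ((j : ℕ) - (a - 1))) i s' =
        ((Tm (act u u.adjugate w) p0 I0) ^ ((j : ℕ) - (a - 1))) i s' := by
      rw [hTc, hpow, Matrix.mul_apply (M := u * T ^ ((j : ℕ) - (a - 1)))]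
      have h3 : ∀ m, u.adjugate m s' = (1 : Matrix (Fin k) (Fin k) E) m s' :=
        fun m => hadjcol m s' (hI p0)
      simp only [h3, Matrix.one_apply]
      simp
    rw [h1, h2]
    exact pow_mem' K (fun i j => hc _) _ i s'
  intro i j
  by_cases hj : (j : ℕ) ≤ a - 1
  · rw [hu3 i j hj, Matrix.one_apply]
    split_ifs
    · exact K.one_mem
    · exact K.zero_mem
  · refine col_mem K u R (a - 1) hu1 hu2 ?_ ?_ hmem _ j rfl (by omega) i
    · intro i j hj hij
      have hij' : (i : ℕ) < j := hij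
      exact (hTp _ i).1 (by omega)
    · intro j hj
      exact (hTp _ j).2 (by omega)

end field

end R658.NV
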