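import Mathlib
import Pool.Agent.R658.NV.Mem

namespace R658.NV

open scoped BigOperators Matrix

variable {n k : ℕ} (A C : Finset (Fin n))

theorem ugen_low (i j : Fin k) (h : j < i) : ugen n k A C i j = 0 := by
  simp only [ugen, Matrix.of_apply]
  rw [dif_neg (fun h' => absurd h'.1 (not_lt.mpr h.le)), Matrix.one_apply_ne h.ne']

theorem ugen_diag (i : Fin k) : ugen n k A C i i = 1 := by
  simp only [ugen, Matrix.of_apply]
  rw [dif_neg (fun h' => lt_irrefl _ h'.1), Matrix.one_apply_eq]

theorem ugen_col (i j : Fin k) (hj : (j : ℕ) ≤ A.card - 1) : ugen n k A C i j =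
    (1 : Matrix (Fin k) (Fin k) (MvPolynomial (TT n k A C) ℂ)) i j := by
  simp only [ugen, Matrix.of_apply]
  rw [dif_neg]
  rintro ⟨h1, h2⟩
  have h3 : (i : ℕ) < j := h1
  omega

theorem ugen_det : (ugen n k A C).det = 1 := by
  have hut : (ugen n k A C).BlockTriangular id := fun i j hij => ugen_low A C i j hij
  rw [Matrix.det_of_isUpperTriangular hut]
  simp [ugen_diag]

theorem bW_mem (t : Fin (Module.finrank ℂ (W ℂ n k A C))) :
    (bW n k A C t : Idx n k → ℂ) ∈ W ℂ n k A C := (bW n k A C t).2

theorem wgen_zero (I : Fin n → Fin k) (j : Fin k) (h : ∃ p, j ≤ I p) :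
    wgen n k A C (I, j) = 0 := by
  refine Finset.sum_eq_zero fun t _ => ?_
  rw [(bW_mem A C t).2.2 I j h, map_zero, mul_zero]

theorem wgen_ne (hAC : Disjoint A C) (I : Fin n → Fin k) (j : Fin k)
    (hI : Set.InjOn I (A : Set (Fin n))) (hlt : ∀ p, I p < j) : wgen n k A C (I, j) ≠ 0 := by
  obtain ⟨w, hw, hw1⟩ := exists_w1 (k := k) A C hAC
  intro h0
  let y : TT n k A C → ℂ := Sum.elim (fun _ => 0) (fun t => (bW n k A C).repr ⟨w, hw⟩ t)
  have h1 := congrFun (wgen_eval A C y) (I, j)
  have h2 : (∑ t, y (Sum.inr t) • bW n k A C t : W ℂ n k A C) = ⟨w, hw⟩ :=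
    (bW n k A C).sum_repr ⟨w, hw⟩
  rw [h2] at h1
  simp only [h0, map_zero] at h1
  exact hw1 I j hI hlt h1.symm

theorem wgen_dual (t : Fin (Module.finrank ℂ (W ℂ n k A C))) : ∃ φ : Idx n k → ℂ,
    (MvPolynomial.X (Sum.inr t) : MvPolynomial (TT n k A C) ℂ) =
      ∑ q, MvPolynomial.C (φ q) * wgen n k A C q := by
  classical
  obtain ⟨π, hπ⟩ := LinearMap.exists_leftInverse_of_injective (W ℂ n k A C).subtype
    (by exact Submodule.ker_subtype _)
  let φ : Idx n k → ℂ := fun q => (bW n k A C).repr (π (Pi.single q 1)) t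
  have hφ : ∀ t', ∑ q, φ q * (bW n k A C t' : Idx n k → ℂ) q = if t' = t then 1 else 0 := by
    intro t'
    have h1 : π (bW n k A C t' : Idx n k → ℂ) = bW n k A C t' := by
      have := LinearMap.congr_fun hπ (bW n k A C t')
      exact this
    have h2 : (bW n k A C t' : Idx n k → ℂ) =
        ∑ q, (bW n k A C t' : Idx n k → ℂ) q • (Pi.single q (1 : ℂ) : Idx n k → ℂ) := by
      funext q'
      rw [Finset.sum_apply, Finset.sum_eq_single q']
      · simp
      · intro q _ hq
        simp [Pi.single_apply, hq.symm]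
      · intro h; exact absurd (Finset.mem_univ _) h
    have h3 : (bW n k A C).repr (π (bW n k A C t' : Idx n k → ℂ)) t =
        ∑ q, φ q * (bW n k A C t' : Idx n k → ℂ) q := by
      conv_lhs => rw [h2]
      rw [map_sum, map_sum, Finsupp.finsetSum_apply]
      refine Finset.sum_congr rfl fun q _ => ?_
      rw [map_smul, map_smul, Finsupp.smul_apply, smul_eq_mul, mul_comm]
    rw [← h3, h1, Module.Basis.repr_self, Finsupp.single_apply]
  refine ⟨φ, ?_⟩
  simp only [wgen, Finset.mul_sum]
  rw [Finset.sum_comm]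
  have h4 : ∀ t', ∑ q, MvPolynomial.C (φ q) * ((MvPolynomial.X (Sum.inr t') :
      MvPolynomial (TT n k A C) ℂ) * MvPolynomial.C ((bW n k A C t' : Idx n k → ℂ) q)) =
      MvPolynomial.C (if t' = t then (1 : ℂ) else 0) * MvPolynomial.X (Sum.inr t') := by
    intro t'
    rw [← hφ t', map_sum, Finset.sum_mul]
    refine Finset.sum_congr rfl fun q _ => ?_
    rw [map_mul]
    ring
  rw [Finset.sum_congr rfl (fun t' _ => h4 t')]
  rw [Finset.sum_eq_single t]
  · simp
  · intro t' _ ht'
    simp [ht']
  · intro h; exact absurd (Finset.mem_univ _) h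

theorem X_mem (hn : 0 < n) (hAC : Disjoint A C) (t : TT n k A C) :
    algebraMap (MvPolynomial (TT n k A C) ℂ) (FractionRing (MvPolynomial (TT n k A C) ℂ))
      (MvPolynomial.X t) ∈ IntermediateField.adjoin ℂ (Set.range fun q =>
        algebraMap (MvPolynomial (TT n k A C) ℂ)
          (FractionRing (MvPolynomial (TT n k A C) ℂ)) (Phi n k A C q)) := by
  classical
  set S := MvPolynomial (TT n k A C) ℂ with hS
  set E := FractionRing S with hE
  set ι : S →+* E := algebraMap S E with hι
  have hιinj : Function.Injective ι := IsFractionRing.injective S E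
  set KI := IntermediateField.adjoin ℂ (Set.range fun q => ι (Phi n k A C q)) with hKI
  let K : Subfield E := KI.toSubfield
  have hcK : ∀ q, ι (Phi n k A C q) ∈ K := fun q => IntermediateField.subset_adjoin _ _ ⟨q, rfl⟩
  have hCK : ∀ z : ℂ, ι (MvPolynomial.C z) ∈ K := by
    intro z
    have h1 : ι (MvPolynomial.C z) = algebraMap ℂ E z := by
      rw [IsScalarTower.algebraMap_apply ℂ S E]; rfl
    rw [h1]
    exact KI.algebraMap_mem z
  set uE : Matrix (Fin k) (Fin k) E := (ugen n k A C).map ι with huE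
  let wE : Idx n k → E := fun q => ι (wgen n k A C q)
  have hc : ∀ q, ι (Phi n k A C q) = act uE uE.adjugate wE q := by
    intro q
    rw [Phi, map_act]
    congr 1
    rw [huE, ← RingHom.mapMatrix_apply, ← RingHom.mapMatrix_apply, RingHom.map_adjugate]
  have hcK' : ∀ q, act uE uE.adjugate wE q ∈ K := fun q => by rw [← hc]; exact hcK q
  have hu1 : ∀ i j : Fin k, j < i → uE i j = 0 := fun i j h => by
    rw [huE, Matrix.map_apply, ugen_low A C i j h, map_zero]
  have hu2 : ∀ i, uE i i = 1 := fun i => by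
    rw [huE, Matrix.map_apply, ugen_diag, map_one]
  have hone : ∀ i j : Fin k, ι ((1 : Matrix (Fin k) (Fin k) S) i j) =
      (1 : Matrix (Fin k) (Fin k) E) i j := by
    intro i j
    rw [Matrix.one_apply, Matrix.one_apply]
    split_ifs
    · exact map_one _
    · exact map_zero _
  have hu3 : ∀ i j : Fin k, (j : ℕ) ≤ A.card - 1 → uE i j = (1 : Matrix (Fin k) (Fin k) E) i j :=
    fun i j h => by
      rw [huE, Matrix.map_apply, ugen_col A C i j h, hone]
  have hdet : uE.det = 1 := by
    rw [huE, ← RingHom.mapMatrix_apply, ← RingHom.map_det, ugen_det, map_one]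
  have huK : ∀ i j, uE i j ∈ K := by
    rcases lt_or_ge A.card k with hak | hak
    · obtain ⟨p0, I0, hI, hI0, hinj⟩ := exists_base hn A hak
      refine u_mem K A.card uE hu1 hu2 hu3 wE ?_ p0 I0 hI hI0 ?_ hcK'
      · intro I j h
        show ι (wgen n k A C (I, j)) = 0
        rw [wgen_zero A C I j h, map_zero]
      · intro m m' hm hm' h0
        have h1 : wgen n k A C (Function.update I0 p0 m, m') = 0 :=
          hιinj (h0.trans (map_zero ι).symm)
        refine wgen_ne A C hAC _ _ (hinj m hm) ?_ h1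
        intro p
        show ((Function.update I0 p0 m p : Fin k) : ℕ) < m'
        rcases eq_or_ne p p0 with rfl | hp
        · rw [Function.update_self]; omega
        · rw [Function.update_of_ne hp]
          have := hI p
          omega
    · intro i j
      have h1 : uE i j = (1 : Matrix (Fin k) (Fin k) E) i j := hu3 i j (by have := j.isLt; omega)
      rw [h1, Matrix.one_apply]
      split_ifs
      · exact K.one_mem
      · exact K.zero_mem
  have hwK : ∀ q, wE q ∈ K := by
    intro q
    have h1 : act uE.adjugate uE (act uE uE.adjugate wE) = wE := by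
      rw [act_act, Matrix.adjugate_mul, hdet, one_smul, act_one]
    rw [← h1]
    exact act_mem K (adj_mem K huK) huK hcK' q
  show ι (MvPolynomial.X t) ∈ K
  cases t with
  | inl q =>
    have h1 : uE q.1.1 q.1.2 = ι (MvPolynomial.X (Sum.inl q)) := by
      rw [huE, Matrix.map_apply]
      simp only [ugen, Matrix.of_apply]
      rw [dif_pos q.2]
    rw [← h1]
    exact huK _ _
  | inr t =>
    obtain ⟨φ, hφ⟩ := wgen_dual A C t (k := k)
    rw [hφ, map_sum]
    refine K.sum_mem fun q _ => ?_
    rw [map_mul]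
    exact K.mul_mem (hCK _) (hwK q)

theorem dim_set (hn : 0 < n) (hAC : Disjoint A C) :
    varDim {c : Idx n k → ℂ | ∃ g : Matrix (Fin k) (Fin k) ℂ,
      IsUnit g.det ∧ ∃ w ∈ W ℂ n k A C, c = act g g⁻¹ w} =
      ((Nat.card (T1 k A.card) + Module.finrank ℂ (W ℂ n k A C) : ℕ) : WithBot ℕ∞) := by
  unfold varDim
  rw [dim_of_param (Phi n k A C) _ (fun f => mem_ideal_iff A C f)
    (fun t => X_mem A C hn hAC t)]
  rw [Nat.card_sum, Nat.card_fin]

theorem sum_T1 (k a : ℕ) : ∑ j ∈ Finset.range k, (if a ≤ j then j else 0) =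
    k.choose 2 - a.choose 2 := by
  induction k with
  | zero => simp
  | succ k ih =>
    rw [Finset.sum_range_succ, ih]
    have h1 : (k + 1).choose 2 = k + k.choose 2 := by
      rw [Nat.choose_succ_succ' k 1, Nat.choose_one_right]
    by_cases h : a ≤ k
    · rw [if_pos h, h1]
      have h2 : a.choose 2 ≤ k.choose 2 := Nat.choose_le_choose 2 h
      omega
    · rw [if_neg h]
      have h2 : (k + 1).choose 2 ≤ a.choose 2 := Nat.choose_le_choose 2 (by omega)
      have h3 : k.choose 2 ≤ a.choose 2 := Nat.choose_le_choose 2 (by omega)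
      omega

theorem card_T1 (k a : ℕ) : Nat.card (T1 k a) = k.choose 2 - a.choose 2 := by
  classical
  rw [← sum_T1, Nat.card_eq_fintype_card, Fintype.card_subtype, Finset.card_filter,
    Fintype.sum_prod_type_right, Finset.sum_range]
  refine Finset.sum_congr rfl fun j _ => ?_
  by_cases h : a ≤ (j : ℕ)
  · have h5 : ∀ i : Fin k, (if i < j ∧ a ≤ (j : ℕ) then 1 else 0) = if i < j then 1 else 0 := by
      intro i; simp [h]
    rw [Finset.sum_congr rfl (fun i _ => h5 i), ← Finset.card_filter, if_pos h]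
    have h6 : Finset.univ.filter (fun i : Fin k => i < j) = Finset.Iio j := by ext; simp
    rw [h6, Fin.card_Iio]
  · simp [h]

end R658.NV
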